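import Pool.Agent.W254.HP.PartC
import Pool.Agent.H301R2.SSE.Forms

/-!
# The hyperplane theorem over the field of algebraic numbers, and the product inequality

`Lt` is the space of linear combinations, with algebraic coefficients, of `1` and of logarithms of
algebraic numbers.
-/

set_option autoImplicit false

namespace Pool.Agent.W254.HP

open Module Finset
open Pool.Agent.H301R2.SSE (QB mem_QB Lt Lt_rep Lt_mul Lt_alg Lt_log)

/-- **Hyperplane theorem.** -/
theorem hyperplane (d l : ℕ) (x : Fin d → ℂ) (a : Fin d → Fin l → ℂ) (hx : LinearIndependent QB x)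
    (ha : ∀ i j, a i j ∈ Lt) (hxa : ∀ j, ∑ i, x i * a i j = 0)
    (hcol : LinearIndependent QB (fun j i => a i j)) : l ≤ d * (d - 1) := by
  classical
  choose S hS h using fun i j => Lt_rep (ha i j)
  let T : Finset ℂ := Finset.univ.biUnion (fun ij : Fin d × Fin l => S ij.1 ij.2)
  have hT : ∀ a ∈ T, IsAlgebraic ℚ a := by
    intro a ha
    obtain ⟨ij, -, h1⟩ := Finset.mem_biUnion.mp ha
    exact hS _ _ a h1
  let K : IntermediateField ℚ ℂ := IntermediateField.adjoin ℚ (T : Set ℂ)
  haveI : FiniteDimensional ℚ K := by
    apply IntermediateField.finiteDimensional_adjoin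
    intro x hx
    exact (hT x hx).isIntegral
  have hKalg : ∀ a : K, IsAlgebraic ℚ (a : ℂ) := fun a =>
    (Algebra.IsAlgebraic.isAlgebraic (R := ℚ) a).algebraMap (A := ℂ)
  choose β hβ hlog using fun i j => h i j K (fun a ha => by
    apply IntermediateField.subset_adjoin ℚ (T : Set ℂ)
    exact Finset.mem_biUnion.mpr ⟨(i, j), Finset.mem_univ _, ha⟩)
  refine hypP K d l x a ?_ ?_ hxa ?_
  · intro c hc i
    have h1 := Fintype.linearIndependent_iff.mp hx (fun i => ⟨(c i : ℂ), mem_QB.mpr (hKalg _)⟩) (by
      rw [← hc]
      apply Finset.sum_congr rfl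
      intro i _
      rw [Algebra.smul_def]
      rfl) i
    exact Subtype.ext (congrArg (fun z : QB => (z : ℂ)) h1)
  · intro i j
    unfold LK
    rw [Submodule.span_union, Submodule.mem_sup]
    refine ⟨β i j, ?_, a i j - β i j, hlog i j, by ring⟩
    rw [Submodule.mem_span_singleton]
    refine ⟨⟨β i j, hβ i j⟩, ?_⟩
    rw [Algebra.smul_def, mul_one]
    rfl
  · intro c hc j
    have h1 := Fintype.linearIndependent_iff.mp hcol
      (fun j => ⟨(c j : ℂ), mem_QB.mpr (hKalg _)⟩) (by
      funext i
      rw [Finset.sum_apply, Pi.zero_apply, ← hc i]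
      apply Finset.sum_congr rfl
      intro j _
      rw [Pi.smul_apply, Algebra.smul_def]
      rfl) j
    exact Subtype.ext (congrArg (fun z : QB => (z : ℂ)) h1)

/-- **Product inequality.** For finite dimensional spaces `X ⊆ ℂ`, `W ⊆ Lt` over the algebraic
numbers, `dim X * dim W ≤ dim (X W) + dim X (dim X - 1)`. -/
theorem product_le (X W Y : Submodule QB ℂ) [FiniteDimensional QB X] [FiniteDimensional QB W]
    [FiniteDimensional QB Y] (hW : W ≤ Lt) (hY : ∀ x ∈ X, ∀ w ∈ W, x * w ∈ Y) :
    finrank QB X * finrank QB W ≤ finrank QB Y + finrank QB X * (finrank QB X - 1) := by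
  classical
  set h := finrank QB X with hh
  set r := finrank QB W with hr
  let x : Fin h → ℂ := fun i => ((Module.finBasis QB X i : X) : ℂ)
  let w : Fin r → ℂ := fun j => ((Module.finBasis QB W j : W) : ℂ)
  have hxm : ∀ i, x i ∈ X := fun i => (Module.finBasis QB X i).2
  have hwm : ∀ j, w j ∈ W := fun j => (Module.finBasis QB W j).2
  have hx : LinearIndependent QB x :=
    (Module.finBasis QB X).linearIndependent.map' X.subtype X.ker_subtype
  have hw : LinearIndependent QB w :=
    (Module.finBasis QB W).linearIndependent.map' W.subtype W.ker_subtype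
  let φ : (Fin h × Fin r → QB) →ₗ[QB] Y :=
    { toFun := fun c => ⟨∑ p, c p • (x p.1 * w p.2), by
        apply Submodule.sum_mem
        intro p _
        exact Y.smul_mem _ (hY _ (hxm _) _ (hwm _))⟩
      map_add' := by
        intro a b
        apply Subtype.ext
        simp only [Pi.add_apply, add_smul, Finset.sum_add_distrib, Submodule.coe_add]
      map_smul' := by
        intro c a
        apply Subtype.ext
        simp only [Pi.smul_apply, smul_eq_mul, mul_smul, Finset.smul_sum, RingHom.id_apply,
          Submodule.coe_smul] }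
  have hφ : ∀ c, ((φ c : Y) : ℂ) = ∑ p, c p • (x p.1 * w p.2) := fun c => rfl
  have h1 := LinearMap.finrank_range_add_finrank_ker φ
  rw [Module.finrank_fintype_fun_eq_card, Fintype.card_prod, Fintype.card_fin, Fintype.card_fin]
    at h1
  have h2 : finrank QB (LinearMap.range φ) ≤ finrank QB Y := Submodule.finrank_le _
  have h3 : finrank QB (LinearMap.ker φ) ≤ h * (h - 1) := by
    let B := Module.finBasis QB (LinearMap.ker φ)
    refine hyperplane h _ x (fun i m => ∑ j, (B m : Fin h × Fin r → QB) (i, j) • w j) hx ?_ ?_ ?_
    · intro i m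
      apply Submodule.sum_mem
      intro j _
      exact Lt.smul_mem _ (hW (hwm j))
    · intro m
      have h4 : ((φ (B m : Fin h × Fin r → QB) : Y) : ℂ) = 0 := by
        have := (B m).2
        rw [LinearMap.mem_ker] at this
        rw [this]; rfl
      rw [hφ, Fintype.sum_prod_type] at h4
      rw [← h4]
      apply Finset.sum_congr rfl
      intro i _
      rw [Finset.mul_sum]
      apply Finset.sum_congr rfl
      intro j _
      rw [mul_smul_comm]
    · rw [Fintype.linearIndependent_iff]
      intro b hb
      have h5 : ∀ i j, ∑ m, b m * (B m : Fin h × Fin r → QB) (i, j) = 0 := by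
        intro i
        have h6 := congrFun hb i
        rw [Finset.sum_apply] at h6
        simp only [Pi.smul_apply, Pi.zero_apply, Finset.smul_sum, smul_smul] at h6
        rw [Finset.sum_comm] at h6
        simp only [← Finset.sum_smul] at h6
        exact Fintype.linearIndependent_iff.mp hw _ h6
      have h7 : ∑ m, b m • B m = 0 := by
        apply Subtype.ext
        rw [Submodule.coe_sum]
        funext p
        obtain ⟨i, j⟩ := p
        rw [Finset.sum_apply]
        exact h5 i j
      exact Fintype.linearIndependent_iff.mp B.linearIndependent b h7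
  omega

end Pool.Agent.W254.HP
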