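import Pool.Agent.W254.HP.Core

/-!
# Linear algebra for the hyperplane case of the linear subgroup theorem
-/

set_option autoImplicit false

namespace Pool.Agent.W254.HP

open Module Finset Pool.Agent.H301R2.ZG
open Pool.Agent.H301R2.SSE (Lg dg bs om om_alg om_ne cc mul_om mem_Lg span_K zeg ortho_le int_basis
  finrank_int_le_rat finrank_int_le_c)

/-- expansion in a pivot basis -/
theorem pivot_expand {K ι : Type*} [Field K] [Fintype ι] [DecidableEq ι] (U : Submodule K (ι → K))
    (e : Fin (finrank K U) → ι) (v : Fin (finrank K U) → (ι → K)) (hv : ∀ k, v k ∈ U)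
    (hev : ∀ k k', v k' (e k) = if k = k' then 1 else 0) (w : ι → K) (hw : w ∈ U) (i : ι) :
    w i = ∑ k, w (e k) * v k i := by
  classical
  let φ : U →ₗ[K] (Fin (finrank K U) → K) :=
    { toFun := fun w k => (w : ι → K) (e k)
      map_add' := by intro a b; rfl
      map_smul' := by intro a b; rfl }
  have hsurj : Function.Surjective φ := by
    intro z
    refine ⟨∑ k, z k • (⟨v k, hv k⟩ : U), ?_⟩
    funext k
    change ((∑ k, z k • (⟨v k, hv k⟩ : U) : U) : ι → K) (e k) = z k
    rw [Submodule.coe_sum, Finset.sum_apply, Finset.sum_eq_single k]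
    · simp [hev k k]
    · intro k' _ hk'
      simp [hev k k', Ne.symm hk']
    · intro h; exact absurd (Finset.mem_univ _) h
  have hinj : Function.Injective φ := by
    refine (LinearMap.injective_iff_surjective_of_finrank_eq_finrank ?_).mpr hsurj
    rw [Module.finrank_fintype_fun_eq_card, Fintype.card_fin]
  have h1 : (⟨w, hw⟩ : U) = ∑ k, w (e k) • (⟨v k, hv k⟩ : U) := by
    apply hinj
    funext k
    change w (e k) = ((∑ k, w (e k) • (⟨v k, hv k⟩ : U) : U) : ι → K) (e k)
    rw [Submodule.coe_sum, Finset.sum_apply, Finset.sum_eq_single k]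
    · simp [hev k k]
    · intro k' _ hk'
      simp [hev k k', Ne.symm hk']
    · intro h; exact absurd (Finset.mem_univ _) h
  have h2 := congrArg (fun z : U => (z : ι → K) i) h1
  simp only [Submodule.coe_sum, Finset.sum_apply] at h2
  rw [h2]
  apply Finset.sum_congr rfl
  intro k _
  simp

/-- pivot basis -/
theorem pivot_basis {K ι : Type*} [Field K] [Fintype ι] [DecidableEq ι] (U : Submodule K (ι → K)) :
    ∃ (r : ℕ) (e : Fin r → ι) (v : Fin r → (ι → K)), finrank K U = r ∧ (∀ k, v k ∈ U) ∧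
      (∀ k k', v k' (e k) = if k = k' then 1 else 0) ∧
      ∀ w ∈ U, ∀ i, w i = ∑ k, w (e k) * v k i := by
  obtain ⟨e, v, hv, hev⟩ := exists_dual U
  exact ⟨_, e, v, rfl, hv, hev, fun w hw i => pivot_expand U e v hv hev w hw i⟩

theorem finrank_rat_le {ι : Type*} [Fintype ι] (R : AddSubgroup (ι → ℤ)) :
    finrank ℚ (ratSpan R) ≤ finrank ℤ R := by
  obtain ⟨ρ, h1, h2, h3⟩ := int_basis R
  have h4 : ratSpan R ≤ Submodule.span ℚ (Set.range (fun k => (fun j => ((ρ k j : ℤ) : ℚ)))) := by
    unfold ratSpan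
    rw [Submodule.span_le]
    rintro _ ⟨m, hm, rfl⟩
    obtain ⟨c, hc⟩ := h2 m hm
    have : (fun j => ((m j : ℤ) : ℚ)) = ∑ k, (c k : ℚ) • (fun j => ((ρ k j : ℤ) : ℚ)) := by
      funext j
      rw [hc, Finset.sum_apply, Finset.sum_apply]
      push_cast
      apply Finset.sum_congr rfl
      intro k _
      simp
    rw [SetLike.mem_coe, this]
    apply Submodule.sum_mem
    intro k _
    exact Submodule.smul_mem _ _ (Submodule.subset_span ⟨k, rfl⟩)
  refine (Submodule.finrank_mono h4).trans ?_
  refine (finrank_range_le_card _).trans ?_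
  rw [Fintype.card_fin]

/-- the rational orthogonal complement -/
def rperp {ι : Type*} [Fintype ι] (R : AddSubgroup (ι → ℤ)) : Submodule ℚ (ι → ℚ) where
  carrier := {t | ∀ m ∈ R, ∑ j, t j * (m j : ℚ) = 0}
  zero_mem' := by intro m _; simp
  add_mem' := by
    intro a b ha hb m hm
    simp only [Pi.add_apply, add_mul, Finset.sum_add_distrib, ha m hm, hb m hm, add_zero]
  smul_mem' := by
    intro c a ha m hm
    simp only [Pi.smul_apply, smul_eq_mul, mul_assoc, ← Finset.mul_sum, ha m hm, mul_zero]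

theorem mem_rperp {ι : Type*} [Fintype ι] {R : AddSubgroup (ι → ℤ)} {t : ι → ℚ} :
    t ∈ rperp R ↔ ∀ m ∈ R, ∑ j, t j * (m j : ℚ) = 0 := Iff.rfl

theorem card_le_perp {ι : Type*} [Fintype ι] [DecidableEq ι] (R : AddSubgroup (ι → ℤ)) :
    Fintype.card ι ≤ finrank ℚ (ratSpan R) + finrank ℚ (rperp R) := by
  obtain ⟨e, v, hv, hev⟩ := exists_dual (ratSpan R)
  let φ : (ι → ℚ) →ₗ[ℚ] (Fin (finrank ℚ (ratSpan R)) → ℚ) :=
    { toFun := fun t k => ∑ j, t j * v k j
      map_add' := by
        intro a b; funext k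
        simp only [Pi.add_apply, add_mul, Finset.sum_add_distrib]
      map_smul' := by
        intro c a; funext k
        simp only [Pi.smul_apply, smul_eq_mul, RingHom.id_apply, mul_assoc, Finset.mul_sum] }
  have h1 := LinearMap.finrank_range_add_finrank_ker φ
  rw [Module.finrank_fintype_fun_eq_card] at h1
  have h2 : finrank ℚ (LinearMap.range φ) ≤ finrank ℚ (ratSpan R) := by
    refine (Submodule.finrank_le _).trans ?_
    rw [Module.finrank_fintype_fun_eq_card, Fintype.card_fin]
  have h3 : LinearMap.ker φ ≤ rperp R := by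
    intro t ht m hm
    have hm' : (fun j => ((m j : ℤ) : ℚ)) ∈ ratSpan R := Submodule.subset_span ⟨m, hm, rfl⟩
    have h4 : ∀ i, (m i : ℚ) = ∑ k, (m (e k) : ℚ) * v k i :=
      fun i => pivot_expand (ratSpan R) e v hv hev _ hm' i
    have h5 : ∀ j, t j * (m j : ℚ) = ∑ k, (m (e k) : ℚ) * (t j * v k j) := by
      intro j
      rw [h4 j, Finset.mul_sum]
      apply Finset.sum_congr rfl
      intro k _
      ring
    simp only [h5]
    rw [Finset.sum_comm]
    apply Finset.sum_eq_zero
    intro k _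
    rw [← Finset.mul_sum]
    have h6 : ∑ j, t j * v k j = 0 := congrFun (LinearMap.mem_ker.mp ht) k
    rw [h6, mul_zero]
  have h4 := Submodule.finrank_mono h3
  omega

/-- linear forms which vanish on the rational orthogonal complement take values in `K P` at the
vectors with integral multiples of `P` -/
theorem comb_twoPi {ι : Type*} [Fintype ι] [DecidableEq ι] (K : IntermediateField ℚ ℂ)
    (R : AddSubgroup (ι → ℤ)) (c : ι → K)
    (hc : ∀ t ∈ rperp R, ∑ j, (t j : ℂ) * (c j : ℂ) = 0) (U : ι → ℂ) (P : ℂ)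
    (hU : ∀ m ∈ R, ∃ n : ℤ, ∑ j, (m j : ℂ) * U j = n * P) :
    ∃ κ : K, ∑ j, (c j : ℂ) * U j = κ * P := by
  obtain ⟨e, v, hv, hev⟩ := exists_dual (ratSpan R)
  have hq : ∀ k, ∃ q : ℚ, ∑ j, (v k j : ℂ) * U j = q * P := by
    intro k
    obtain ⟨N, hN, ρ, hρ, h2⟩ := mem_ratSpan (hv k)
    obtain ⟨n, hn⟩ := hU ρ hρ
    have hN' : (N : ℂ) ≠ 0 := by exact_mod_cast hN.ne'
    refine ⟨n / N, ?_⟩
    have h3 : ∀ j, (ρ j : ℂ) = N * (v k j : ℂ) := by
      intro j
      have := congrArg (fun q : ℚ => (q : ℂ)) (h2 j)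
      push_cast at this
      exact this
    simp only [h3, mul_assoc, ← Finset.mul_sum] at hn
    push_cast
    rw [div_mul_eq_mul_div, eq_div_iff hN', mul_comm]
    exact hn
  choose q hq using hq
  have hexp : ∀ j, (c j : ℂ) = ∑ k, (c (e k) : ℂ) * (v k j : ℂ) := by
    intro j
    have h1 := hc (fun i => (if i = j then 1 else 0) - ∑ k, (if i = e k then v k j else 0)) (by
      intro m hm
      have hm' : (fun j => ((m j : ℤ) : ℚ)) ∈ ratSpan R := Submodule.subset_span ⟨m, hm, rfl⟩
      have h4 : (m j : ℚ) = ∑ k, (m (e k) : ℚ) * v k j :=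
        pivot_expand (ratSpan R) e v hv hev _ hm' j
      simp only [sub_mul, Finset.sum_sub_distrib, ite_mul, one_mul, zero_mul, Finset.sum_mul]
      rw [Finset.sum_ite_eq' Finset.univ j, if_pos (Finset.mem_univ _), Finset.sum_comm]
      have h5 : ∀ k, ∑ i, (if i = e k then v k j * (m i : ℚ) else 0) = (m (e k) : ℚ) * v k j := by
        intro k
        rw [Finset.sum_ite_eq' Finset.univ (e k), if_pos (Finset.mem_univ _)]
        ring
      simp only [h5]
      rw [h4]; ring)
    have h2 : ∀ i, (((if i = j then 1 else 0) - ∑ k, (if i = e k then v k j else 0) : ℚ) : ℂ) *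
        (c i : ℂ) = (if i = j then (c i : ℂ) else 0) - ∑ k, (if i = e k then (v k j : ℂ) * (c i : ℂ)
          else 0) := by
      intro i
      push_cast
      rw [sub_mul, Finset.sum_mul]
      congr 1
      · split_ifs <;> simp
      · apply Finset.sum_congr rfl
        intro k _
        split_ifs <;> simp
    simp only [h2] at h1
    rw [Finset.sum_sub_distrib, Finset.sum_ite_eq' Finset.univ j, if_pos (Finset.mem_univ _),
      Finset.sum_comm] at h1
    have h5 : ∀ k, ∑ i, (if i = e k then (v k j : ℂ) * (c i : ℂ) else 0) =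
        (c (e k) : ℂ) * (v k j : ℂ) := by
      intro k
      rw [Finset.sum_ite_eq' Finset.univ (e k), if_pos (Finset.mem_univ _)]
      ring
    simp only [h5] at h1
    exact sub_eq_zero.mp h1
  refine ⟨∑ k, c (e k) * algebraMap ℚ K (q k), ?_⟩
  have h1 : ∀ j, (c j : ℂ) * U j = ∑ k, (c (e k) : ℂ) * ((v k j : ℂ) * U j) := by
    intro j
    rw [hexp j, Finset.sum_mul]
    apply Finset.sum_congr rfl
    intro k _
    ring
  simp only [h1]
  rw [Finset.sum_comm]
  simp only [← Finset.mul_sum, hq]
  push_cast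
  rw [Finset.sum_mul]
  apply Finset.sum_congr rfl
  intro k _
  have : ((algebraMap ℚ K (q k) : K) : ℂ) = (q k : ℂ) := rfl
  rw [this]
  ring

/-- kernel and pair of maps -/
theorem finrank_pair {K V W : Type*} [Field K] [AddCommGroup V] [Module K V] [AddCommGroup W]
    [Module K W] [FiniteDimensional K V] [FiniteDimensional K W] (Z : Submodule K (V × W))
    (hZ : ∀ z ∈ Z, z.1 = 0 → z = 0) (Z0 : Submodule K V) (hZ0 : ∀ v, (v, (0 : W)) ∈ Z → v ∈ Z0) :
    finrank K (Z.map (LinearMap.fst K V W)) ≤ finrank K Z0 + finrank K W := by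
  have h1 : finrank K (Z.map (LinearMap.fst K V W)) ≤ finrank K Z := by
    exact Submodule.finrank_map_le _ _
  have h2 := LinearMap.finrank_range_add_finrank_ker ((LinearMap.snd K V W).comp Z.subtype)
  have h3 : finrank K (LinearMap.range ((LinearMap.snd K V W).comp Z.subtype)) ≤ finrank K W :=
    Submodule.finrank_le _
  have h4 : finrank K (LinearMap.ker ((LinearMap.snd K V W).comp Z.subtype)) ≤ finrank K Z0 := by
    let f : LinearMap.ker ((LinearMap.snd K V W).comp Z.subtype) →ₗ[K] Z0 :=
      { toFun := fun z => ⟨((z : Z) : V × W).1, by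
          apply hZ0
          have h5 : ((z : Z) : V × W).2 = 0 := z.2
          rw [← h5]
          exact (z : Z).2⟩
        map_add' := by intro a b; rfl
        map_smul' := by intro a b; rfl }
    apply LinearMap.finrank_le_finrank_of_injective (f := f)
    intro z z' hz
    have h6 : ((z : Z) : V × W).1 = ((z' : Z) : V × W).1 := congrArg Subtype.val hz
    have h7 := hZ (((z : Z) : V × W) - ((z' : Z) : V × W)) (Z.sub_mem (z : Z).2 (z' : Z).2)
      (by rw [Prod.fst_sub, h6, sub_self])
    apply Subtype.ext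
    apply Subtype.ext
    exact sub_eq_zero.mp h7
  omega

end Pool.Agent.W254.HP
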