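import Pool.Agent.H301R2.SSE.Setup

/-!
# Index bookkeeping for the hyperplane case of the linear subgroup theorem

General `d` version of the files `Pool.Agent.H301R2.SSE.Core` and `Pool.Agent.H301R2.SSE.Main`
(which treat `d = 2`).
-/

set_option autoImplicit false

namespace Pool.Agent.W254.HP

open Module Finset Pool.Agent.H301R2.ZG
open Pool.Agent.H301R2.SSE (Lg dg bs om om_alg om_ne cc mul_om mem_Lg span_K zeg ortho_le int_basis
  finrank_int_le_rat finrank_int_le_c)

section core

variable {m D : ℕ} [NeZero D]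

/-- index of the pair `(i,h)` -/
def pr (i : Fin m) (h : Fin D) : Fin (m * D) := finProdFinEquiv (i, h)

/-- first component -/
def f1 (q : Fin (m * D)) : Fin m := (finProdFinEquiv.symm q).1
/-- second component -/
def f2 (q : Fin (m * D)) : Fin D := (finProdFinEquiv.symm q).2

omit [NeZero D] in
@[simp] theorem f1_pr (i : Fin m) (h : Fin D) : f1 (pr i h) = i := by simp [f1, pr]
omit [NeZero D] in
@[simp] theorem f2_pr (i : Fin m) (h : Fin D) : f2 (pr i h) = h := by simp [f2, pr]
omit [NeZero D] in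
theorem pr_f (q : Fin (m * D)) : pr (f1 q) (f2 q) = q :=
  finProdFinEquiv.apply_symm_apply q

omit [NeZero D] in
theorem sum_pr {M : Type*} [AddCommMonoid M] (f : Fin (m * D) → M) :
    ∑ q, f q = ∑ i, ∑ h, f (pr i h) := by
  rw [← Fintype.sum_prod_type' (f := fun i h => f (pr i h))]
  exact (Equiv.sum_comp finProdFinEquiv f).symm

/-- the coefficients of the derivations -/
noncomputable def gam (om : Fin D → ℂ) (d q : Fin (m * D)) : ℂ :=
  if f1 d = f1 q then
    (if f2 q = 0 then (if f2 d = 0 then -1 / om 0 else -om (f2 d) / om 0)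
      else (if f2 d = f2 q then 1 else 0)) else 0

theorem gam_alg (om : Fin D → ℂ) (h : ∀ h, IsAlgebraic ℚ (om h)) (d q : Fin (m * D)) :
    IsAlgebraic ℚ (gam om d q) := by
  unfold gam
  split_ifs
  · exact (isAlgebraic_one.neg).mul (h 0).inv
  · exact ((h _).neg).mul (h 0).inv
  · exact isAlgebraic_one
  · exact isAlgebraic_zero
  · exact isAlgebraic_zero

theorem sum_gam (om : Fin D → ℂ) (hom : om 0 ≠ 0) (a : Fin m → ℂ) (u : Fin m → Fin D → ℂ)
    (z : Fin m → ℂ) (hz : ∀ i, z i = a i + ∑ h, om h * u i h) (q : Fin (m * D)) :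
    u (f1 q) (f2 q) = (if f2 q = 0 then z (f1 q) / om 0 else 0) +
      ∑ d, gam om d q * (if f2 d = 0 then a (f1 d) else u (f1 d) (f2 d)) := by
  rw [sum_pr]
  have h1 : ∀ i, ∑ h, gam om (pr i h) q * (if f2 (pr i h) = 0 then a (f1 (pr i h))
      else u (f1 (pr i h)) (f2 (pr i h))) = if i = f1 q then
        ∑ h, (if f2 q = 0 then (if h = 0 then -1 / om 0 else -om h / om 0)
          else (if h = f2 q then 1 else 0)) * (if h = 0 then a (f1 q) else u (f1 q) h) else 0 := by
    intro i
    by_cases hi : i = f1 q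
    · rw [if_pos hi]
      apply Finset.sum_congr rfl
      intro h _
      unfold gam
      rw [f1_pr, f2_pr, if_pos hi, hi]
    · rw [if_neg hi]
      apply Finset.sum_eq_zero
      intro h _
      unfold gam
      rw [f1_pr, if_neg hi, zero_mul]
  simp only [h1]
  rw [Finset.sum_ite_eq' Finset.univ (f1 q), if_pos (Finset.mem_univ _)]
  by_cases hq : f2 q = 0
  · simp only [hq, if_true]
    have h2 : ∀ h, (if h = 0 then -1 / om 0 else -om h / om 0) *
        (if h = 0 then a (f1 q) else u (f1 q) h) =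
        (if h = 0 then (u (f1 q) 0 - a (f1 q) / om 0) else 0) - (om h * u (f1 q) h) / om 0 := by
      intro h
      split_ifs with hh
      · rw [hh]; field_simp; ring
      · ring
    simp only [h2]
    rw [Finset.sum_sub_distrib, Finset.sum_ite_eq' Finset.univ (0 : Fin D),
      if_pos (Finset.mem_univ _), ← Finset.sum_div, hz (f1 q)]
    ring
  · simp only [hq, if_false]
    rw [zero_add, Finset.sum_eq_single (f2 q)]
    · rw [if_pos rfl, if_neg hq, one_mul]
    · intro h _ hh
      rw [if_neg hh, zero_mul]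
    · intro h; exact absurd (Finset.mem_univ _) h

end core

section alg

variable {m D : ℕ} [NeZero D] (om : Fin D → ℂ) (Af : Submodule ℂ (Fin (m * D) → ℂ))
  (Rm : AddSubgroup (Fin (m * D) → ℤ))

/-- the functional on the space of directions attached to `(a,r)` -/
noncomputable def Psi : (Af × cSpan Rm) →ₗ[ℂ] (Fin (m * D) → ℂ) where
  toFun v := fun d => (v.1 : Fin (m * D) → ℂ) d + ∑ q, (v.2 : Fin (m * D) → ℂ) q * gam om d q
  map_add' v v' := by
    funext d
    simp only [Prod.fst_add, Prod.snd_add, Submodule.coe_add, Pi.add_apply, add_mul,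
      Finset.sum_add_distrib]
    ring
  map_smul' c v := by
    funext d
    simp only [Prod.smul_fst, Prod.smul_snd, Submodule.coe_smul, Pi.smul_apply, smul_eq_mul,
      RingHom.id_apply, mul_add, Finset.mul_sum]
    congr 1
    apply Finset.sum_congr rfl
    intro q _
    ring

/-- kernel elements -/
theorem Psi_ker (hom : om 0 ≠ 0) (hAf : ∀ a ∈ Af, ∀ d, f2 d ≠ 0 → a d = 0)
    {v : Af × cSpan Rm} (hv : Psi om Af Rm v = 0) :
    (∀ i, (v.1 : Fin (m * D) → ℂ) (pr i 0) = (v.2 : Fin (m * D) → ℂ) (pr i 0) / om 0) ∧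
    (∀ i h, (v.2 : Fin (m * D) → ℂ) (pr i h) = (v.2 : Fin (m * D) → ℂ) (pr i 0) / om 0 * om h) := by
  have h1 : ∀ i h, (v.1 : Fin (m * D) → ℂ) (pr i h) +
      ((v.2 : Fin (m * D) → ℂ) (pr i 0) * (if h = 0 then -1 / om 0 else -om h / om 0) +
        (if h = 0 then 0 else (v.2 : Fin (m * D) → ℂ) (pr i h))) = 0 := by
    intro i h
    have h2 := congrFun hv (pr i h)
    change (v.1 : Fin (m * D) → ℂ) (pr i h) + ∑ q, (v.2 : Fin (m * D) → ℂ) q * gam om (pr i h) q
      = 0 at h2
    have hsum : ∑ q, (v.2 : Fin (m * D) → ℂ) q * gam om (pr i h) q =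
      ((v.2 : Fin (m * D) → ℂ) (pr i 0) * (if h = 0 then -1 / om 0 else -om h / om 0) +
        (if h = 0 then 0 else (v.2 : Fin (m * D) → ℂ) (pr i h))) := ?_
    · rw [hsum] at h2
      exact h2
    rw [sum_pr, Finset.sum_eq_single i]
    · have h3 : ∀ h', (v.2 : Fin (m * D) → ℂ) (pr i h') * gam om (pr i h) (pr i h') =
          (if h' = 0 then (v.2 : Fin (m * D) → ℂ) (pr i 0) *
            (if h = 0 then -1 / om 0 else -om h / om 0) else 0) +
          (if h' = h then (if h = 0 then 0 else (v.2 : Fin (m * D) → ℂ) (pr i h)) else 0) := by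
        intro h'
        unfold gam
        rw [f1_pr, f1_pr, f2_pr, f2_pr, if_pos rfl]
        by_cases h0 : h' = 0
        · subst h0
          rw [if_pos rfl, if_pos rfl]
          by_cases hh : h = 0
          · subst hh; simp
          · rw [if_neg hh, if_neg (fun e => hh e.symm)]; ring
        · rw [if_neg h0, if_neg h0]
          by_cases hh : h = h'
          · subst hh
            rw [if_pos rfl, if_pos rfl, if_neg h0]; ring
          · rw [if_neg hh, if_neg (fun e => hh e.symm)]; ring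
      simp only [h3]
      rw [Finset.sum_add_distrib, Finset.sum_ite_eq' Finset.univ (0 : Fin D),
        Finset.sum_ite_eq' Finset.univ h, if_pos (Finset.mem_univ _), if_pos (Finset.mem_univ _)]
    · intro i' _ hi'
      apply Finset.sum_eq_zero
      intro h' _
      unfold gam
      rw [f1_pr, f1_pr, if_neg (fun e => hi' e.symm), mul_zero]
    · intro h; exact absurd (Finset.mem_univ _) h
  constructor
  · intro i
    have h2 := h1 i 0
    rw [if_pos rfl, if_pos rfl, add_zero] at h2
    linear_combination h2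
  · intro i h
    by_cases hh : h = 0
    · subst hh
      rw [div_mul_cancel₀ _ hom]
    · have h2 := h1 i h
      rw [if_neg hh, if_neg hh, hAf _ v.1.2 _ (by rw [f2_pr]; exact hh)] at h2
      linear_combination h2

theorem Psi_W0 (W0 : Submodule ℂ (Fin (m * D) → ℂ))
    (hW0 : ∀ c, c ∈ W0 ↔ (∀ a ∈ Af, ∑ i, a i * c i = 0) ∧
        ∀ m ∈ Rm, ∑ j, (m j : ℂ) * ∑ i, c i * gam om i j = 0) :
    finrank ℂ (LinearMap.range (Psi om Af Rm)) + finrank ℂ W0 ≤ m * D := by
  apply ortho_le
  rintro _ ⟨v, rfl⟩ c hc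
  rw [hW0] at hc
  obtain ⟨hc1, hc2⟩ := hc
  have h1 : ∀ r ∈ cSpan Rm, ∑ q, r q * ∑ i, c i * gam om i q = 0 := by
    intro r hr
    refine Submodule.span_induction (p := fun r _ => ∑ q, r q * ∑ i, c i * gam om i q = 0)
      ?_ ?_ ?_ ?_ hr
    · rintro _ ⟨m, hm, rfl⟩
      exact hc2 m hm
    · simp
    · intro r r' _ _ h h'
      simp only [Pi.add_apply, add_mul, Finset.sum_add_distrib, h, h', add_zero]
    · intro a r _ h
      simp only [Pi.smul_apply, smul_eq_mul, mul_assoc, ← Finset.mul_sum, h, mul_zero]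
  have h2 := hc1 _ v.1.2
  have h3 := h1 _ v.2.2
  change ∑ d, ((v.1 : Fin (m * D) → ℂ) d + ∑ q, (v.2 : Fin (m * D) → ℂ) q * gam om d q) * c d = 0
  have h4 : ∑ d, ((v.1 : Fin (m * D) → ℂ) d + ∑ q, (v.2 : Fin (m * D) → ℂ) q * gam om d q) * c d =
      ∑ i, (v.1 : Fin (m * D) → ℂ) i * c i +
      ∑ q, (v.2 : Fin (m * D) → ℂ) q * ∑ i, c i * gam om i q := by
    simp only [add_mul, Finset.sum_add_distrib, Finset.sum_mul, Finset.mul_sum]
    congr 1
    rw [Finset.sum_comm]
    apply Finset.sum_congr rfl; intro q _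
    apply Finset.sum_congr rfl; intro d _
    ring
  rw [h4, h2, h3, add_zero]

end alg

end Pool.Agent.W254.HP
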