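import Pool.Agent.W254.HP.Rel2

/-!
# Relations between a fixed logarithm and linear forms in other logarithms
-/

set_option autoImplicit false

namespace Pool.Agent.W254.HP

open Module Finset MvPolynomial
open Pool.Agent.H301R2.SSE (QB mem_QB Lt Lt_rep Lt_mul Lt_alg Lt_log)

/-- nonzero logarithms of algebraic numbers are transcendental -/
theorem log_transcendental {t : ℂ} (ht : IsAlgebraic ℚ (Complex.exp t)) (ht0 : t ≠ 0) :
    Transcendental ℚ t := by
  intro halg
  have h1 := Pool.Agent.H297R2.baker_inhom (ι := Fin 1) (fun _ => t) (fun _ => ht)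
    (LinearIndependent.of_subsingleton (i := 0) (by simpa using ht0)) (-t) halg.neg (fun _ => 1)
    (fun _ => isAlgebraic_one) (by simp)
  exact one_ne_zero (h1.2 0)

theorem algInd_one {t : ℂ} (ht : Transcendental ℚ t) :
    AlgebraicIndependent QB (fun _ : Fin 1 => t) := by
  rw [algebraicIndependent_unique_type_iff]
  intro h
  apply ht
  haveI : Algebra.IsAlgebraic ℚ QB := algebraicClosure.isAlgebraic ℚ ℂ
  exact h.restrictScalars ℚ

/-- the index change -/
def oe {ι : Type} : Option ι → Fin 1 ⊕ ι := fun o => o.elim (Sum.inl 0) Sum.inr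

theorem oe_inj {ι : Type} : Function.Injective (oe : Option ι → Fin 1 ⊕ ι) := by
  intro a b h
  cases a <;> cases b <;> simp_all [oe]

/-- a fixed logarithm -/
theorem fixed_log (D : ℕ) (hD : 1 ≤ D) {ι : Type} (l₀ : ℂ) (l : ι → ℂ)
    (hl₀ : IsAlgebraic ℚ (Complex.exp l₀)) (hl : ∀ i, IsAlgebraic ℚ (Complex.exp (l i)))
    (hli : LinearIndependent ℚ (fun o : Option ι => (o.elim l₀ l : ℂ))) :
    ∃ E : Finset ι, E.card ≤ max 1 (4 * D - 4) ∧ ∀ P : MvPolynomial (Option ι) QB,
      (∀ m ∈ P.support, m none ≤ D ∧ ((∀ s, m (some s) = 0) ∨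
        ∃ s, s ∉ E ∧ m (some s) = 1 ∧ ∀ s', s' ≠ s → m (some s') = 0)) →
      aeval (fun o : Option ι => (o.elim l₀ l : ℂ)) P = 0 → P = 0 := by
  classical
  have hl₀0 : l₀ ≠ 0 := hli.ne_zero none
  have ht : AlgebraicIndependent QB (fun _ : Fin 1 => l₀) :=
    algInd_one (log_transcendental hl₀ hl₀0)
  -- the family `l₀, 1, l i`
  have hw : LinearIndependent QB
      (fun o : Option (Option ι) => (o.elim l₀ (fun o : Option ι => (o.elim 1 l : ℂ)) : ℂ)) := by
    have h1 := opt_indep (ι := Option ι) (fun o => (o.elim l₀ l : ℂ)) (by
      intro o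
      cases o with
      | none => exact hl₀
      | some i => exact hl i) hli
    let sw : Option (Option ι) → Option (Option ι) := fun o =>
      match o with
      | none => some none
      | some none => none
      | some (some i) => some (some i)
    have hsw : Function.Injective sw := by
      intro a b h
      rcases a with _ | _ | a <;> rcases b with _ | _ | b <;> simp_all [sw]
    have h2 := h1.comp sw hsw
    convert h2 using 1
    funext o
    rcases o with _ | _ | o <;> rfl
  obtain ⟨E, hE0, hEc, hE⟩ := fixed_exceptional ht D hD (fun o : Option ι => (o.elim 1 l : ℂ)) hw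
    (by
      intro o
      cases o with
      | none => exact Lt_alg isAlgebraic_one
      | some i => exact Lt_log (hl i)) (Lt_log hl₀) none rfl
  refine ⟨E.eraseNone, ?_, ?_⟩
  · have h1 : E.eraseNone.card ≤ E.card := by
      rw [← Finset.card_map Function.Embedding.some]
      apply Finset.card_le_card
      intro o ho
      obtain ⟨i, hi, rfl⟩ := Finset.mem_map.mp ho
      exact Finset.mem_eraseNone.mp hi
    refine h1.trans ?_
    obtain ⟨e, rfl⟩ : ∃ e, D = e + 1 := ⟨D - 1, by omega⟩
    have h2 : 2 * (e + 1) - 1 = 2 * e + 1 := by omega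
    rw [h2] at hEc
    by_contra hcon
    push Not at hcon
    have h3 : 1 < E.card := lt_of_le_of_lt (le_max_left _ _) hcon
    have h4 : 4 * (e + 1) - 4 < E.card := lt_of_le_of_lt (le_max_right _ _) hcon
    have h5 : 4 * e + 1 ≤ E.card := by omega
    rcases Nat.eq_zero_or_pos e with he | he
    · subst he
      norm_num at hEc
      omega
    · have h6 : (4 * e + 1) * (e + 1) ≤ E.card * (e + 1) := Nat.mul_le_mul_right _ h5
      nlinarith
  · intro P hP hP0
    have h1 : rename oe P = 0 := by
      refine linIn_zero (t := fun _ : Fin 1 => l₀) D l E.eraseNone ?_ (rename oe P) ?_ ?_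
      · intro Q hQ1 hQ2 hQ3
        have hf := hE (Q.mapRange (aeval (fun _ : Fin 1 => l₀)) (map_zero _)) ?_ ?_ ?_
        · ext1 s
          have h4 := congrArg (fun g : Option ι →₀ ℂ => g s) hf
          simp only [Finsupp.mapRange_apply, Finsupp.coe_zero, Pi.zero_apply] at h4
          exact (algebraicIndependent_iff.mp ht) _ h4
        · intro s
          rw [Finsupp.mapRange_apply, aeval_def, eval₂_eq]
          apply Submodule.sum_mem
          intro m hm
          have h5 := (boxV (fun _ : Fin 1 => l₀) (D + 1)).smul_mem (coeff m (Q s))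
            (mon_mem (fun _ : Fin 1 => l₀) (D + 1) (fun i => m i)
              (fun i => Nat.lt_succ_of_le (hQ1 s m hm i)))
          rw [Algebra.smul_def] at h5
          have h6 : ∏ i, (fun _ : Fin 1 => l₀) i ^ m i =
              ∏ i ∈ m.support, (fun _ : Fin 1 => l₀) i ^ m i := by
            symm
            apply Finset.prod_subset (Finset.subset_univ _)
            intro i _ hi
            rw [Finsupp.notMem_support_iff.mp hi, pow_zero]
          rw [h6] at h5
          exact h5
        · rw [Finsupp.sum_mapRange_index (by intro i; ring)]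
          exact hQ3
        · intro s hs
          rw [Finsupp.mapRange_apply]
          cases s with
          | none => exact absurd hs hE0
          | some i => rw [hQ2 i (Finset.mem_eraseNone.mpr hs), map_zero]
      · intro m hm
        rw [support_rename_of_injective oe_inj] at hm
        obtain ⟨m', hm', rfl⟩ := Finset.mem_image.mp hm
        have hl1 : Finsupp.mapDomain oe m' (Sum.inl 0) = m' none :=
          Finsupp.mapDomain_apply oe_inj m' none
        have hr1 : ∀ s, Finsupp.mapDomain oe m' (Sum.inr s) = m' (some s) := fun s =>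
          Finsupp.mapDomain_apply oe_inj m' (some s)
        obtain ⟨h2, h3⟩ := hP m' hm'
        refine ⟨?_, ?_⟩
        · intro i
          have : i = 0 := Subsingleton.elim _ _
          rw [this, hl1]; exact h2
        · rcases h3 with h3 | ⟨s, hs, h4, h5⟩
          · left
            intro s
            rw [hr1]; exact h3 s
          · right
            refine ⟨s, hs, by rw [hr1]; exact h4, fun s' hs' => by rw [hr1]; exact h5 s' hs'⟩
      · rw [aeval_rename, ← hP0]
        congr 2
        funext o
        cases o <;> rfl
    exact rename_injective oe oe_inj (by rw [h1, map_zero])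

end Pool.Agent.W254.HP
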