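import Pool.Agent.W254.HP.Box
import Pool.Agent.H297R2.ThmJs

/-!
# Baker's theorem for infinite families, and polynomial relations which are linear in logarithms
-/

set_option autoImplicit false

namespace Pool.Agent.W254.HP

open Module Finset MvPolynomial
open Pool.Agent.H301R2.SSE (QB mem_QB Lt Lt_rep Lt_mul Lt_alg Lt_log)

/-- Baker's theorem: `1` together with linearly independent logarithms. -/
theorem opt_indep {ι : Type} (l : ι → ℂ) (hl : ∀ i, IsAlgebraic ℚ (Complex.exp (l i)))
    (hli : LinearIndependent ℚ l) : LinearIndependent QB (fun o : Option ι => o.elim 1 l) := by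
  classical
  rw [linearIndependent_iff']
  intro s g hg
  let s' : Finset ι := s.eraseNone
  have h1 := Pool.Agent.H297R2.baker_inhom (ι := {i // i ∈ s'}) (fun i => l i) (fun i => hl i)
    (hli.comp _ Subtype.val_injective) (if none ∈ s then (g none : ℂ) else 0) (by
      split_ifs
      · exact mem_QB.mp (g none).2
      · exact isAlgebraic_zero)
    (fun i => (g (some i) : ℂ)) (fun i => mem_QB.mp (g (some i)).2) (by
      rw [Finset.sum_coe_sort s' (fun i => (g (some i) : ℂ) * l i)]
      have h2 : ∑ o ∈ s, g o • (o.elim 1 l : ℂ) =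
          (if none ∈ s then (g none : ℂ) else 0) + ∑ i ∈ s', (g (some i) : ℂ) * l i := by
        by_cases hn : none ∈ s
        · rw [if_pos hn, ← Finset.add_sum_erase s _ hn]
          congr 1
          · rw [Algebra.smul_def]
            simp only [Option.elim_none, mul_one]
            rfl
          · have h3 : s.erase none = s'.map Function.Embedding.some := by
              ext o
              cases o with
              | none => simp
              | some i => simp [s']
            rw [h3, Finset.sum_map]
            apply Finset.sum_congr rfl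
            intro i _
            rw [Algebra.smul_def]
            rfl
        · rw [if_neg hn, zero_add]
          have h3 : s = s'.map Function.Embedding.some := by
            ext o
            cases o with
            | none => simp [hn]
            | some i => simp [s']
          conv_lhs => rw [h3]
          rw [Finset.sum_map]
          apply Finset.sum_congr rfl
          intro i _
          rw [Algebra.smul_def]
          rfl
      rw [← h2]
      exact hg)
  intro o ho
  cases o with
  | none =>
    have h2 := h1.1
    rw [if_pos ho] at h2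
    exact Subtype.ext h2
  | some i =>
    have h2 := h1.2 ⟨i, by simpa [s'] using ho⟩
    exact Subtype.ext h2

/-- Logarithms of primes are linearly independent. -/
theorem log_primes_indep : LinearIndependent ℚ (fun p : Nat.Primes => (Real.log (p : ℕ) : ℂ)) := by
  rw [linearIndependent_iff_finset_linearIndependent]
  intro s
  exact Pool.Agent.H297R2.linearIndependent_log_prime (ι := s) (fun i => ((i : Nat.Primes) : ℕ))
    (fun i => (i : Nat.Primes).2) (fun a b h => Subtype.ext (Subtype.ext h))

theorem log_prime_alg (p : Nat.Primes) : IsAlgebraic ℚ (Complex.exp (Real.log (p : ℕ) : ℂ)) := by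
  have h1 : Complex.exp (Real.log (p : ℕ) : ℂ) = ((p : ℕ) : ℂ) := by
    rw [← Complex.ofReal_exp, Real.exp_log (by exact_mod_cast p.2.pos)]
    norm_cast
  rw [h1]
  exact isAlgebraic_algebraMap ((p : ℕ) : ℚ)

/-- `P` has degree at most `D` in each of the first variables, and every monomial of `P` either
contains none of the variables attached to `ι` or exactly one of them, to the first power and not
in `E`. -/
def LinIn {n : ℕ} {ι : Type} (D : ℕ) (E : Finset ι) (P : MvPolynomial (Fin n ⊕ ι) QB) : Prop :=
  ∀ m ∈ P.support, (∀ i, m (Sum.inl i) ≤ D) ∧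
    ((∀ s, m (Sum.inr s) = 0) ∨ ∃ s, s ∉ E ∧ m (Sum.inr s) = 1 ∧ ∀ s', s' ≠ s → m (Sum.inr s') = 0)

/-- passage to polynomials -/
theorem linIn_zero {n : ℕ} {t : Fin n → ℂ} (D : ℕ) {ι : Type} (l : ι → ℂ) (E : Finset ι)
    (hE : ∀ Q : Option ι →₀ MvPolynomial (Fin n) QB, (∀ s, ∀ m ∈ (Q s).support, ∀ i, m i ≤ D) →
      (∀ s ∈ E, Q (some s) = 0) → Q.sum (fun s P => aeval t P * (s.elim 1 l : ℂ)) = 0 → Q = 0)
    (P : MvPolynomial (Fin n ⊕ ι) QB) (hP : LinIn D E P)
    (hP0 : aeval (Sum.elim t l) P = 0) : P = 0 := by
  classical
  -- the last variable of a monomial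
  have hex : ∀ m : Fin n ⊕ ι →₀ ℕ, ∃ o : Option ι, m ∈ P.support →
      (∀ s, m (Sum.inr s) = if o = some s then 1 else 0) ∧ ∀ s, o = some s → s ∉ E := by
    intro m
    by_cases hm : m ∈ P.support
    · rcases (hP m hm).2 with h | ⟨s, hs, h1, h2⟩
      · exact ⟨none, fun _ => ⟨fun s => by rw [h s, if_neg (by simp)], by simp⟩⟩
      · refine ⟨some s, fun _ => ⟨fun s' => ?_, ?_⟩⟩
        · by_cases hss : s' = s
          · rw [hss, h1, if_pos rfl]
          · rw [h2 s' hss, if_neg (fun h => hss (Option.some.inj h).symm)]
        · intro s' hs'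
          rw [← Option.some.inj hs']; exact hs
    · exact ⟨none, fun h => absurd h hm⟩
  choose o ho using hex
  let lf : (Fin n ⊕ ι →₀ ℕ) → (Fin n →₀ ℕ) := fun m =>
    Finsupp.equivFunOnFinite.symm (fun i => m (Sum.inl i))
  have hlf : ∀ m i, lf m i = m (Sum.inl i) := fun m i => rfl
  have hinj : ∀ m ∈ P.support, ∀ m' ∈ P.support, o m = o m' → lf m = lf m' → m = m' := by
    intro m hm m' hm' h1 h2
    ext x
    cases x with
    | inl i => exact congrArg (fun g : Fin n →₀ ℕ => g i) h2
    | inr s => rw [(ho m hm).1 s, (ho m' hm').1 s, h1]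
  let Q : Option ι →₀ MvPolynomial (Fin n) QB :=
    ∑ m ∈ P.support, Finsupp.single (o m) (monomial (lf m) (coeff m P))
  have hQs : ∀ s, Q s = ∑ m ∈ P.support, if o m = s then monomial (lf m) (coeff m P) else 0 := by
    intro s
    change (∑ m ∈ P.support, Finsupp.single (o m) (monomial (lf m) (coeff m P))) s = _
    rw [Finsupp.finsetSum_apply]
    apply Finset.sum_congr rfl
    intro m _
    rw [Finsupp.single_apply]
  have hQ0 := hE Q ?_ ?_ ?_
  · -- conclusion
    by_contra hne
    obtain ⟨m, hm⟩ := Finset.nonempty_iff_ne_empty.mpr (fun h => hne (support_eq_empty.mp h))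
    have h1 : coeff (lf m) (Q (o m)) = coeff m P := by
      rw [hQs, coeff_sum, Finset.sum_eq_single m]
      · rw [if_pos rfl, coeff_monomial, if_pos rfl]
      · intro m' hm' hmm
        by_cases h2 : o m' = o m
        · rw [if_pos h2, coeff_monomial, if_neg]
          intro h3
          exact hmm (hinj m' hm' m hm h2 h3)
        · rw [if_neg h2, coeff_zero]
      · intro h; exact absurd hm h
    rw [hQ0, Finsupp.coe_zero, Pi.zero_apply, coeff_zero] at h1
    exact (mem_support_iff.mp hm) h1.symm
  · intro s m hm i
    rw [hQs] at hm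
    have h1 := support_sum hm
    rw [Finset.mem_biUnion] at h1
    obtain ⟨m', hm', h2⟩ := h1
    by_cases h3 : o m' = s
    · rw [if_pos h3] at h2
      have h4 := support_monomial_subset h2
      rw [Finset.mem_singleton] at h4
      rw [h4, hlf]
      exact (hP m' hm').1 i
    · rw [if_neg h3] at h2
      simp at h2
  · intro s hs
    rw [hQs]
    apply Finset.sum_eq_zero
    intro m hm
    rw [if_neg]
    intro h
    exact (ho m hm).2 s h hs
  · have h1 : Q.sum (fun s P => aeval t P * (s.elim 1 l : ℂ)) =
        ∑ m ∈ P.support, aeval t (monomial (lf m) (coeff m P)) * ((o m).elim 1 l : ℂ) := by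
      change (∑ m ∈ P.support, Finsupp.single (o m) (monomial (lf m) (coeff m P))).sum _ = _
      rw [← Finsupp.sum_finsetSum_index]
      · apply Finset.sum_congr rfl
        intro m _
        rw [Finsupp.sum_single_index]
        rw [map_zero, zero_mul]
      · intro s; rw [map_zero, zero_mul]
      · intro s a b; rw [map_add, add_mul]
    rw [h1, ← hP0, aeval_def, eval₂_eq]
    apply Finset.sum_congr rfl
    intro m hm
    rw [aeval_monomial, mul_assoc]
    congr 1
    -- split the product
    have h2 : ∏ x ∈ m.support, Sum.elim t l x ^ m x =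
        ∏ x ∈ (Finset.univ.map ⟨Sum.inl, Sum.inl_injective⟩ ∪
          ((o m).toFinset.map ⟨Sum.inr, Sum.inr_injective⟩) : Finset (Fin n ⊕ ι)),
          Sum.elim t l x ^ m x := by
      apply Finset.prod_subset
      · intro x hx
        rw [Finset.mem_union]
        cases x with
        | inl i => left; simp
        | inr s =>
          right
          have h3 := Finsupp.mem_support_iff.mp hx
          rw [(ho m hm).1 s] at h3
          have h4 : o m = some s := by
            by_contra h5
            rw [if_neg h5] at h3
            exact h3 rfl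
          simp [h4]
      · intro x _ hx
        rw [Finsupp.notMem_support_iff.mp hx, pow_zero]
    rw [h2, Finset.prod_union]
    · congr 1
      · rw [Finset.prod_map, Finsupp.prod_fintype _ _ (fun i => pow_zero _)]
        rfl
      · rw [Finset.prod_map]
        have h3 := (ho m hm).1
        cases hom : o m with
        | none => simp
        | some s =>
          rw [hom] at h3
          have h4 := h3 s
          rw [if_pos rfl] at h4
          simp [h4]
    · rw [Finset.disjoint_left]
      intro x hx hx'
      obtain ⟨i, _, hi⟩ := Finset.mem_map.mp hx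
      obtain ⟨s, _, hs⟩ := Finset.mem_map.mp hx'
      rw [← hi] at hs
      exact Sum.inr_ne_inl hs

/-- relations linear in logarithms, with polynomial coefficients at `t` -/
theorem linear_in_logs {n : ℕ} {t : Fin n → ℂ} (ht : AlgebraicIndependent QB t) (D : ℕ)
    {ι : Type} (l : ι → ℂ) (hl : ∀ i, IsAlgebraic ℚ (Complex.exp (l i)))
    (hli : LinearIndependent ℚ l) :
    ∃ E : Finset ι, E.card ≤ (4 * D) ^ n - 2 ^ n ∧ ∀ P : MvPolynomial (Fin n ⊕ ι) QB,
      LinIn D E P → aeval (Sum.elim t l) P = 0 → P = 0 := by
  classical
  obtain ⟨E, hE0, hEc, hE⟩ := box_relations ht D (fun o : Option ι => (o.elim 1 l : ℂ))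
    (opt_indep l hl hli) (by
      intro o
      cases o with
      | none => exact Lt_alg isAlgebraic_one
      | some i => exact Lt_log (hl i)) none
  refine ⟨E.eraseNone, ?_, ?_⟩
  · refine le_trans ?_ hEc
    rw [← Finset.card_map Function.Embedding.some]
    apply Finset.card_le_card
    intro o ho
    obtain ⟨i, hi, rfl⟩ := Finset.mem_map.mp ho
    exact Finset.mem_eraseNone.mp hi
  · intro P hP hP0
    refine linIn_zero D l E.eraseNone ?_ P hP hP0
    intro Q hQ1 hQ2 hQ3
    refine hE Q hQ1 ?_ hQ3
    intro s hs
    cases s with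
    | none => exact absurd hs hE0
    | some i => exact hQ2 i (Finset.mem_eraseNone.mpr hs)

end Pool.Agent.W254.HP
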