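import Pool.Agent.W254.HP.LA2
import Pool.Agent.H301R2.SSE.Thm

/-!
# Application of the obstruction theorem in the hyperplane case
-/

set_option autoImplicit false

namespace Pool.Agent.W254.HP

open Module Finset Pool.Agent.H301R2.ZG
open Pool.Agent.H301R2.SSE (Lg dg bs om om_alg om_ne cc mul_om mem_Lg span_K zeg ortho_le int_basis
  finrank_int_le_rat finrank_int_le_c tau tau_coe tau_eq_zero)

theorem cSpan_zero {n : ℕ} (Rm : AddSubgroup (Fin n → ℤ)) {f : (Fin n → ℂ)}
    (h : ∀ m ∈ Rm, ∑ q, (m q : ℂ) * f q = 0) : ∀ r ∈ cSpan Rm, ∑ q, r q * f q = 0 := by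
  intro r hr
  refine Submodule.span_induction (p := fun r _ => ∑ q, r q * f q = 0) ?_ ?_ ?_ ?_ hr
  · rintro _ ⟨m, hm, rfl⟩
    exact h m hm
  · simp
  · intro r r' _ _ h h'
    simp only [Pi.add_apply, add_mul, Finset.sum_add_distrib, h, h', add_zero]
  · intro a r _ h
    simp only [Pi.smul_apply, smul_eq_mul, mul_assoc, ← Finset.mul_sum, h, mul_zero]

/-- a vector of a hyperplane from all coordinates but the first one -/
theorem dir_sum {n D : ℕ} [NeZero D] (x z : Fin (n + 1) → ℂ) (w : ℂ) (hx0 : x 0 ≠ 0)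
    (hxz : ∑ i, x i * z i = 0) (q : Fin ((n + 1) * D)) :
    (if f2 q = 0 then z (f1 q) / w else 0) =
      ∑ ρ : Fin n, (if f2 q = 0 then (if f1 q = ρ.succ then 1 else if f1 q = 0 then
        -(x ρ.succ / x 0) else 0) / w else 0) * z ρ.succ := by
  by_cases h2 : f2 q = 0
  · simp only [if_pos h2]
    rcases Fin.eq_zero_or_eq_succ (f1 q) with h1 | ⟨j, h1⟩
    · rw [h1]
      have h3 : ∀ ρ : Fin n, (if (0 : Fin (n + 1)) = ρ.succ then (1 : ℂ) else
          if (0 : Fin (n + 1)) = 0 then -(x ρ.succ / x 0) else 0) / w * z ρ.succ =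
          -((x ρ.succ * z ρ.succ) / (x 0 * w)) := by
        intro ρ
        rw [if_neg (Fin.succ_ne_zero ρ).symm, if_pos rfl]
        rw [div_mul_eq_mul_div, neg_mul, neg_div, div_mul_eq_mul_div, div_div]
      rw [Finset.sum_congr rfl (fun ρ _ => h3 ρ)]
      rw [Finset.sum_neg_distrib, ← Finset.sum_div]
      rw [Fin.sum_univ_succ] at hxz
      have h4 : ∑ ρ : Fin n, x ρ.succ * z ρ.succ = -(x 0 * z 0) := by linear_combination hxz
      rw [h4, neg_div, neg_neg, mul_div_mul_left _ _ hx0]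
    · rw [h1, Finset.sum_eq_single j]
      · rw [if_pos rfl]; ring
      · intro ρ _ hρ
        rw [if_neg (fun h => hρ (Fin.succ_injective _ h).symm), if_neg (Fin.succ_ne_zero j)]
        simp
      · intro h; exact absurd (Finset.mem_univ _) h
  · simp only [h2, if_false, zero_mul, Finset.sum_const_zero]

section points

variable (K : IntermediateField ℚ ℂ) [FiniteDimensional ℚ K] {d l : ℕ}

/-- logarithms at the points -/
noncomputable def um (u : Fin d → Fin l → Fin (dg K) → ℂ) (i : Fin d) (h : Fin (dg K))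
    (p : Fin (l * dg K)) : ℂ :=
  ∑ h0, (cc K (bs K (f2 p)) h0 h : ℂ) * u i (f1 p) h0

/-- algebraic parts at the points -/
noncomputable def av (β : Fin d → Fin l → K) (i : Fin d) (p : Fin (l * dg K)) : ℂ :=
  om K (f2 p) * (β i (f1 p) : ℂ)

theorem factA (a : Fin d → Fin l → ℂ) (β : Fin d → Fin l → K)
    (u : Fin d → Fin l → Fin (dg K) → ℂ)
    (ha : ∀ i j, a i j = (β i j : ℂ) + ∑ h, om K h * u i j h) (i : Fin d)
    (p : Fin (l * dg K)) :
    om K (f2 p) * a i (f1 p) = av K β i p + ∑ h, om K h * um K u i h p := by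
  unfold av um
  rw [ha, mul_add, Finset.mul_sum]
  congr 1
  have h2 : ∀ h0, om K (f2 p) * (om K h0 * u i (f1 p) h0) =
      ∑ h, (cc K (bs K (f2 p)) h0 h : ℂ) * om K h * u i (f1 p) h0 := by
    intro h0
    have := mul_om K (bs K (f2 p)) h0
    rw [← mul_assoc, ← Finset.sum_mul, ← this]
    rfl
  simp only [h2, Finset.mul_sum]
  rw [Finset.sum_comm]
  apply Finset.sum_congr rfl; intro h _
  apply Finset.sum_congr rfl; intro h0 _
  ring

theorem um_mem (u : Fin d → Fin l → Fin (dg K) → ℂ) (hu : ∀ i j h, u i j h ∈ Lg) (i : Fin d)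
    (h : Fin (dg K)) (p : Fin (l * dg K)) : um K u i h p ∈ Lg := by
  unfold um
  apply Submodule.sum_mem
  intro h0 _
  have := Lg.smul_mem (cc K (bs K (f2 p)) h0 h) (hu i (f1 p) h0)
  rwa [Rat.smul_def] at this

/-- the coefficients in `K` attached to rational coefficients of the points -/
noncomputable def kk (t : Fin (l * dg K) → ℚ) (j : Fin l) : K := tau K (fun g => t (pr j g))

theorem sum_kk (t : Fin (l * dg K) → ℚ) (y : Fin l → ℂ) :
    ∑ p, om K (f2 p) * y (f1 p) * (t p : ℂ) = ∑ j, (kk K t j : ℂ) * y j := by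
  rw [sum_pr]
  apply Finset.sum_congr rfl
  intro j _
  unfold kk
  rw [tau_coe, Finset.sum_mul]
  apply Finset.sum_congr rfl
  intro g _
  rw [f1_pr, f2_pr]
  ring

theorem kk_zero (t : Fin (l * dg K) → ℚ) (h : ∀ j, kk K t j = 0) : t = 0 := by
  funext p
  have h3 := congrFun (tau_eq_zero K (h (f1 p))) (f2 p)
  simp only [Pi.zero_apply, pr_f] at h3
  exact h3

/-- **Part A**: application of the obstruction theorem. -/
theorem partA (n l : ℕ) (x : Fin (n + 1) → ℂ) (a : Fin (n + 1) → Fin l → ℂ)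
    (β : Fin (n + 1) → Fin l → K) (u : Fin (n + 1) → Fin l → Fin (dg K) → ℂ)
    (hu : ∀ i j h, u i j h ∈ Lg) (ha : ∀ i j, a i j = (β i j : ℂ) + ∑ h, om K h * u i j h)
    (hx0 : x 0 ≠ 0) (hxa : ∀ j, ∑ i, x i * a i j = 0) (κ μ σ : ℕ) (hκ : μ + σ = κ)
    (hcount : (κ + 1) * (n + (n + 1) * dg K) + 1 ≤ (n + 1) * κ + ((n + 1) * dg K) * μ)
    (hσ : 0 < σ) :
    ∃ (N : Submodule ℂ (Fin (n + 1) → ℂ)) (Rm : AddSubgroup (Fin ((n + 1) * dg K) → ℤ))
      (G0 : AddSubgroup (Fin (l * dg K) → ℤ)), 1 ≤ finrank ℂ N ∧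
      (finrank ℤ Rm + (l * dg K - finrank ℤ G0)) * σ ≤ finrank ℂ N * κ ∧
      (∀ t ∈ rperp Rm, ∀ α ∈ N, ∑ i, α i * ((kk K t i : K) : ℂ) = 0) ∧
      ∀ s ∈ G0, (∀ α ∈ N, ∑ i, α i * ∑ j, (kk K (fun p => (s p : ℚ)) j : ℂ) * (β i j : ℂ) = 0) ∧
        ∀ m ∈ Rm, ∃ n : ℤ, ∑ q, (m q : ℂ) * ∑ p, um K u (f1 q) (f2 q) p * (s p : ℂ) =
          n * (2 * Real.pi * Complex.I) := by
  classical
  have hom0 : om K 0 ≠ 0 := om_ne K 0
  set A : Finset (Fin ((n + 1) * dg K)) := Finset.univ.filter (fun d => f2 d = 0) with hA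
  have hAcard : A.card = n + 1 := by
    have : A = (Finset.univ : Finset (Fin (n + 1))).image (fun i => pr i (0 : Fin (dg K))) := by
      ext d
      simp only [hA, Finset.mem_filter, Finset.mem_univ, true_and, Finset.mem_image]
      constructor
      · intro h; exact ⟨f1 d, by rw [← h, pr_f]⟩
      · rintro ⟨i, rfl⟩; exact f2_pr i 0
    rw [this, Finset.card_image_of_injective]
    · simp
    · intro i i' h
      have := congrArg f1 h
      simpa using this
  set ω : Fin ((n + 1) * dg K) → Fin (l * dg K) → ℂ := fun d p =>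
    if f2 d = 0 then av K β (f1 d) p else um K u (f1 d) (f2 d) p with hω
  set uu : Fin ((n + 1) * dg K) → Fin (l * dg K) → ℂ := fun q p => um K u (f1 q) (f2 q) p with huu
  obtain ⟨Af, Rm, W0, G0, hAfA, hne0, hW0, hG0, hineq⟩ :=
    Pool.Agent.H335R2.Obs.obstruction_of zeg (w := (n + 1) * dg K) (b := (n + 1) * dg K)
      (l := l * dg K) (r := n) A (gam (om K)) ω uu
      (fun ρ q => if f2 q = 0 then (if f1 q = ρ.succ then 1 else if f1 q = 0 then
        -(x ρ.succ / x 0) else 0) / om K 0 else 0)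
      (fun ρ p => om K (f2 p) * a ρ.succ (f1 p))
      (gam_alg (om K) (om_alg K))
      (by
        intro d hd p
        have hd' : f2 d = 0 := (Finset.mem_filter.mp hd).2
        simp only [hω, if_pos hd']
        refine (om_alg K _).mul ?_
        exact (Algebra.IsAlgebraic.isAlgebraic (R := ℚ) (β (f1 d) (f1 p))).algebraMap (A := ℂ))
      (fun q p => um_mem K u hu _ _ p)
      (by
        intro q p
        have h1 := sum_gam (om K) hom0 (fun i => av K β i p) (fun i h => um K u i h p)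
          (fun i => om K (f2 p) * a i (f1 p)) (fun i => factA K a β u ha i p) q
        simp only [huu, hω]
        rw [h1]
        congr 1
        refine dir_sum x (fun i => om K (f2 p) * a i (f1 p)) (om K 0) hx0 ?_ q
        have h2 : ∀ i, x i * (om K (f2 p) * a i (f1 p)) = om K (f2 p) * (x i * a i (f1 p)) := by
          intro i; ring
        simp only [h2]
        rw [← Finset.mul_sum, hxa, mul_zero])
      κ μ σ hκ (by rw [hAcard]; exact hcount)
  have hAf : ∀ a ∈ Af, ∀ d, f2 d ≠ 0 → a d = 0 := by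
    intro a ha d hd
    exact hAfA a ha d (by simp [hA, hd])
  set wc := (n + 1) * dg K - finrank ℂ W0 with hwc
  set bb := l * dg K - finrank ℤ G0 with hbb
  set d0 := finrank ℂ Af with hd0
  set d1 := finrank ℤ Rm with hd1
  have hle : wc * κ + bb * σ ≤ d0 * κ + d1 * μ := by
    rcases hineq with h | h
    · exact h.le
    · exact h.1.le
  have hrn := LinearMap.finrank_range_add_finrank_ker (Psi (om K) Af Rm)
  have hprod : finrank ℂ (Af × cSpan Rm) = d0 + finrank ℂ (cSpan Rm) := Module.finrank_prod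
  rw [hprod] at hrn
  have hW := Psi_W0 (om K) Af Rm W0 hW0
  have hdc : d1 ≤ finrank ℂ (cSpan Rm) := finrank_int_le_c Rm
  let κ0 : (Af × cSpan Rm) →ₗ[ℂ] (Fin (n + 1) → ℂ) :=
    { toFun := fun v i => (v.2 : Fin ((n + 1) * dg K) → ℂ) (pr i 0) / om K 0
      map_add' := by intro v v'; funext i; simp [add_div]
      map_smul' := by intro c v; funext i; simp [mul_div_assoc] }
  have hkinj : ∀ v ∈ LinearMap.ker (Psi (om K) Af Rm), κ0 v = 0 → v = 0 := by
    intro v hv hv0
    obtain ⟨h1, h2⟩ := Psi_ker (om K) Af Rm hom0 hAf (LinearMap.mem_ker.mp hv)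
    have h3 : ∀ i, (v.2 : Fin ((n + 1) * dg K) → ℂ) (pr i 0) / om K 0 = 0 :=
      fun i => congrFun hv0 i
    apply Prod.ext
    · apply Subtype.ext
      funext d
      rw [← pr_f d]
      by_cases hd : f2 d = 0
      · rw [hd, h1, h3]; rfl
      · rw [hAf _ v.1.2 _ (by rw [f2_pr]; exact hd)]; rfl
    · apply Subtype.ext
      funext d
      rw [← pr_f d, h2, h3, zero_mul]; rfl
  set N : Submodule ℂ (Fin (n + 1) → ℂ) := (LinearMap.ker (Psi (om K) Af Rm)).map κ0 with hN
  have hNc : finrank ℂ (LinearMap.ker (Psi (om K) Af Rm)) = finrank ℂ N := by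
    let f : LinearMap.ker (Psi (om K) Af Rm) →ₗ[ℂ] N :=
      { toFun := fun v => ⟨κ0 v, Submodule.mem_map_of_mem v.2⟩
        map_add' := by intro a b; apply Subtype.ext; simp
        map_smul' := by intro a b; apply Subtype.ext; simp }
    refine le_antisymm ?_ ?_
    · apply LinearMap.finrank_le_finrank_of_injective (f := f)
      intro v v' hv
      have h1 : κ0 v = κ0 v' := congrArg Subtype.val hv
      have h2 := hkinj ((v : Af × cSpan Rm) - (v' : Af × cSpan Rm))
        (Submodule.sub_mem _ v.2 v'.2) (by rw [map_sub, h1, sub_self])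
      exact Subtype.ext (sub_eq_zero.mp h2)
    · exact Submodule.finrank_map_le _ _
  rw [hNc] at hrn
  have hkey : d0 + d1 ≤ wc + finrank ℂ N := by omega
  have hfin : (d1 + bb) * σ ≤ finrank ℂ N * κ := by
    have h1 : (d0 + d1) * κ ≤ (wc + finrank ℂ N) * κ := Nat.mul_le_mul_right _ hkey
    have h2 : d1 * κ = d1 * μ + d1 * σ := by rw [← hκ]; ring
    nlinarith
  refine ⟨N, Rm, G0, ?_, hfin, ?_, ?_⟩
  · -- the kernel is not zero
    by_contra hcon
    have h0 : finrank ℂ N = 0 := by omega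
    rw [h0, zero_mul] at hfin
    have h1 : d1 + bb = 0 := by
      rcases Nat.mul_eq_zero.mp (Nat.le_zero.mp hfin) with h | h
      · exact h
      · omega
    have hd1' : d1 = 0 := by omega
    have hbb' : bb = 0 := by omega
    have hd0' : d0 = 0 := by
      rcases hineq with h | ⟨h, h', h''⟩
      · exfalso
        have h2 : wc * κ + bb * σ < d0 * κ + d1 * μ := h
        rw [hd1', hbb', zero_mul, zero_mul, add_zero, add_zero] at h2
        have h3 : wc < d0 := lt_of_mul_lt_mul_right h2 (Nat.zero_le _)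
        omega
      · have : wc = 0 := h'
        omega
    apply hne0
    constructor
    · exact Submodule.finrank_eq_zero.mp hd0'
    · obtain ⟨ρ, hρ1, hρ2, hρ3⟩ := int_basis Rm
      rw [eq_bot_iff]
      intro m hm
      obtain ⟨c, hc⟩ := hρ2 m hm
      haveI : IsEmpty (Fin (finrank ℤ Rm)) := by
        have : finrank ℤ Rm = 0 := hd1'
        rw [this]; infer_instance
      rw [hc]
      simp
  · -- rational orthogonality
    intro t ht α hα
    obtain ⟨v, hv, rfl⟩ := hα
    obtain ⟨h1, h2⟩ := Psi_ker (om K) Af Rm hom0 hAf (LinearMap.mem_ker.mp hv)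
    have h3 := cSpan_zero Rm (f := fun q => (t q : ℂ)) (by
      intro m hm
      have := congrArg (fun q : ℚ => (q : ℂ)) (ht m hm)
      push_cast at this
      rw [← this]
      apply Finset.sum_congr rfl; intro q _; ring) _ v.2.2
    rw [sum_pr] at h3
    rw [← h3]
    apply Finset.sum_congr rfl
    intro i _
    unfold kk
    rw [tau_coe, Finset.mul_sum]
    apply Finset.sum_congr rfl
    intro h _
    rw [h2 i h]
    change (v.2 : Fin ((n + 1) * dg K) → ℂ) (pr i 0) / om K 0 * ((t (pr i h) : ℂ) * om K h) = _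
    ring
  · intro s hs
    constructor
    · intro α hα
      obtain ⟨v, hv, rfl⟩ := hα
      obtain ⟨h1, h2⟩ := Psi_ker (om K) Af Rm hom0 hAf (LinearMap.mem_ker.mp hv)
      have h3 := ((hG0 s).mp hs).1 _ v.1.2
      rw [sum_pr] at h3
      rw [← h3]
      apply Finset.sum_congr rfl
      intro i _
      have h5 : ∑ h : Fin (dg K), (v.1 : Fin ((n + 1) * dg K) → ℂ) (pr i h) *
          ∑ p, ω (pr i h) p * (s p : ℂ) = (v.1 : Fin ((n + 1) * dg K) → ℂ) (pr i 0) *
          ∑ p, ω (pr i 0) p * (s p : ℂ) := by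
        apply Finset.sum_eq_single 0
        · intro h _ hh
          rw [hAf _ v.1.2 _ (by rw [f2_pr]; exact hh), zero_mul]
        · intro h; exact absurd (Finset.mem_univ _) h
      rw [h5, h1]
      simp only [hω, f1_pr, f2_pr, if_true]
      have h4 := sum_kk K (fun p => (s p : ℚ)) (fun j => (β i j : ℂ))
      rw [← h4]
      change (v.2 : Fin ((n + 1) * dg K) → ℂ) (pr i 0) / om K 0 * _ = _
      congr 1
    · intro m hm
      obtain ⟨n, hn⟩ := ((hG0 s).mp hs).2 m hm
      refine ⟨n, ?_⟩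
      rw [← hn]
      apply Finset.sum_congr rfl
      intro q _
      rw [Finset.mul_sum]
      apply Finset.sum_congr rfl
      intro p _
      simp only [huu]
      ring

end points

end Pool.Agent.W254.HP
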