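import Pool.Agent.W254.HP.PartA

/-!
# The hyperplane theorem over a number field
-/

set_option autoImplicit false

namespace Pool.Agent.W254.HP

open Module Finset Pool.Agent.H301R2.ZG
open Pool.Agent.H301R2.SSE (Lg dg bs om om_alg om_ne cc mul_om mem_Lg span_K zeg ortho_le int_basis
  finrank_int_le_rat finrank_int_le_c tau tau_coe tau_eq_zero)

variable (K : IntermediateField ℚ ℂ)

/-- linear forms in `1` and logarithms with coefficients in `K` -/
noncomputable def LK : Submodule K ℂ :=
  Submodule.span K ({1} ∪ {z : ℂ | IsAlgebraic ℚ (Complex.exp z)})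

/-- the hyperplane property in dimension `d` -/
def HypP (d : ℕ) : Prop :=
  ∀ (l : ℕ) (x : Fin d → ℂ) (a : Fin d → Fin l → ℂ),
    (∀ c : Fin d → K, ∑ i, (c i : ℂ) * x i = 0 → ∀ i, c i = 0) →
    (∀ i j, a i j ∈ LK K) → (∀ j, ∑ i, x i * a i j = 0) →
    (∀ c : Fin l → K, (∀ i, ∑ j, (c j : ℂ) * a i j = 0) → ∀ j, c j = 0) → l ≤ d * (d - 1)

section setup

variable [FiniteDimensional ℚ K]

theorem LK_rep {z : ℂ} (hz : z ∈ LK K) : ∃ (β : K) (u : Fin (dg K) → ℂ), (∀ h, u h ∈ Lg) ∧
    z = (β : ℂ) + ∑ h, om K h * u h := by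
  unfold LK at hz
  rw [Submodule.span_union, Submodule.mem_sup] at hz
  obtain ⟨b, hb, w, hw, rfl⟩ := hz
  rw [Submodule.mem_span_singleton] at hb
  obtain ⟨β, rfl⟩ := hb
  obtain ⟨u, hu, rfl⟩ := span_K K hw
  refine ⟨β, u, hu, ?_⟩
  congr 1
  rw [Algebra.smul_def, mul_one]
  rfl

theorem kk_inj {m : ℕ} {t t' : Fin (m * dg K) → ℚ} (h : kk K t = kk K t') : t = t' := by
  have h4 : t - t' = 0 := by
    apply kk_zero K
    intro j
    have h5 := congrFun h j
    unfold kk tau at h5 ⊢
    simp only [Pi.sub_apply, sub_smul, Finset.sum_sub_distrib, h5, sub_self]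
  exact sub_eq_zero.mp h4

/-- the `K`-valued combination -/
theorem finrank_G0_le {l : ℕ} (G0 : AddSubgroup (Fin (l * dg K) → ℤ)) (Z : Submodule K (Fin l → K))
    (hZ : ∀ s ∈ G0, kk K (fun p => (s p : ℚ)) ∈ Z) : finrank ℤ G0 ≤ dg K * finrank K Z := by
  refine (finrank_int_le_rat G0).trans ?_
  have h1 : dg K * finrank K Z = finrank ℚ Z := Module.finrank_mul_finrank ℚ K Z
  rw [h1]
  have hadd : ∀ t t' : Fin (l * dg K) → ℚ, kk K (t + t') = kk K t + kk K t' := by
    intro t t'
    funext j
    unfold kk tau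
    simp only [Pi.add_apply, add_smul, Finset.sum_add_distrib]
  have hsmul : ∀ (c : ℚ) (t : Fin (l * dg K) → ℚ), kk K (c • t) = c • kk K t := by
    intro c t
    funext j
    unfold kk tau
    simp only [Pi.smul_apply, smul_eq_mul, mul_smul, Finset.smul_sum]
  have hmem : ∀ t ∈ ratSpan G0, kk K t ∈ Z := by
    intro t ht
    refine Submodule.span_induction (p := fun t _ => kk K t ∈ Z) ?_ ?_ ?_ ?_ ht
    · rintro _ ⟨s, hs, rfl⟩
      exact hZ s hs
    · have : kk K (0 : Fin (l * dg K) → ℚ) = 0 := by
        funext j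
        unfold kk tau
        simp
      rw [this]; exact Z.zero_mem
    · intro a b _ _ ha hb
      rw [hadd]; exact Z.add_mem ha hb
    · intro c a _ ha
      rw [hsmul]
      have : c • kk K a = (algebraMap ℚ K c) • kk K a := by
        funext j
        simp only [Pi.smul_apply, smul_eq_mul]
        rw [Algebra.smul_def]
      rw [this]
      exact Z.smul_mem _ ha
  let f : ratSpan G0 →ₗ[ℚ] Z :=
    { toFun := fun t => ⟨kk K t, hmem t t.2⟩
      map_add' := by
        intro a b
        apply Subtype.ext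
        exact hadd _ _
      map_smul' := by
        intro c a
        apply Subtype.ext
        exact hsmul _ _ }
  haveI : Module.Finite ℚ Z := Module.Finite.trans (R := ℚ) K Z
  apply LinearMap.finrank_le_finrank_of_injective (f := f)
  intro a b hab
  apply Subtype.ext
  have h3 : kk K (a : Fin (l * dg K) → ℚ) = kk K (b : Fin (l * dg K) → ℚ) :=
    congrArg Subtype.val hab
  exact kk_inj K h3

/-- rank of the group of characters -/
theorem finrank_Rm_ge {d : ℕ} (Rm : AddSubgroup (Fin (d * dg K) → ℤ)) (F : Submodule K (Fin d → K))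
    (hF : ∀ t ∈ rperp Rm, kk K t ∈ F) : d * dg K ≤ finrank ℤ Rm + dg K * finrank K F := by
  have h0 := card_le_perp Rm
  rw [Fintype.card_fin] at h0
  have h00 := finrank_rat_le Rm
  have h1 : dg K * finrank K F = finrank ℚ F := Module.finrank_mul_finrank ℚ K F
  have h3 : finrank ℚ (rperp Rm) ≤ dg K * finrank K F := by
    rw [h1]
    have hadd : ∀ t t' : Fin (d * dg K) → ℚ, kk K (t + t') = kk K t + kk K t' := by
      intro t t'
      funext j
      unfold kk tau
      simp only [Pi.add_apply, add_smul, Finset.sum_add_distrib]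
    have hsmul : ∀ (c : ℚ) (t : Fin (d * dg K) → ℚ), kk K (c • t) = c • kk K t := by
      intro c t
      funext j
      unfold kk tau
      simp only [Pi.smul_apply, smul_eq_mul, mul_smul, Finset.smul_sum]
    let f : rperp Rm →ₗ[ℚ] F :=
      { toFun := fun t => ⟨kk K t, hF t t.2⟩
        map_add' := by
          intro a b
          apply Subtype.ext
          exact hadd _ _
        map_smul' := by
          intro c a
          apply Subtype.ext
          exact hsmul _ _ }
    haveI : Module.Finite ℚ F := Module.Finite.trans (R := ℚ) K F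
    apply LinearMap.finrank_le_finrank_of_injective (f := f)
    intro a b hab
    apply Subtype.ext
    have h3 : kk K (a : Fin (d * dg K) → ℚ) = kk K (b : Fin (d * dg K) → ℚ) :=
      congrArg Subtype.val hab
    exact kk_inj K h3
  omega

end setup

end Pool.Agent.W254.HP
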