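import Pool.Agent.W254.HP.Prod

/-!
# Logarithms which are rational functions of a given number
-/

set_option autoImplicit false

namespace Pool.Agent.W254.HP

open Module Finset Polynomial
open Pool.Agent.H301R2.SSE (QB mem_QB Lt Lt_rep Lt_mul Lt_alg Lt_log)

theorem aeval_ne_zero {t : ℂ} (ht : Transcendental ℚ t) {P : QB[X]} (hP : P ≠ 0) :
    aeval t P ≠ 0 := by
  intro h
  apply ht
  have h1 : IsAlgebraic QB t := ⟨P, hP, h⟩
  haveI : Algebra.IsAlgebraic ℚ QB := algebraicClosure.isAlgebraic ℚ ℂ
  exact h1.restrictScalars ℚ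

theorem pow_indep {t : ℂ} (ht : Transcendental ℚ t) (h : ℕ) :
    LinearIndependent QB (fun i : Fin h => t ^ (i : ℕ)) := by
  rw [Fintype.linearIndependent_iff]
  intro c hc
  set P : QB[X] := ∑ i : Fin h, monomial (i : ℕ) (c i) with hPdef
  have h1 : aeval t P = 0 := by
    rw [hPdef, map_sum, ← hc]
    apply Finset.sum_congr rfl
    intro i _
    rw [aeval_monomial, Algebra.smul_def]
  have h2 : P = 0 := by
    by_contra h0
    exact aeval_ne_zero ht h0 h1
  intro i
  have h3 : P.coeff (i : ℕ) = c i := by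
    rw [hPdef, finsetSum_coeff, Finset.sum_eq_single i]
    · rw [coeff_monomial, if_pos rfl]
    · intro j _ hj
      rw [coeff_monomial, if_neg (fun h' => hj (Fin.ext h'))]
    · intro h; exact absurd (Finset.mem_univ _) h
  rw [← h3, h2, coeff_zero]

/-- values of polynomials of degree less than `N` -/
noncomputable def PolyV (t : ℂ) (N : ℕ) : Submodule QB ℂ :=
  (degreeLT QB N).map (aeval t).toLinearMap

theorem mem_PolyV {t : ℂ} {N : ℕ} {P : QB[X]} (hP : P.degree < N) : aeval t P ∈ PolyV t N :=
  ⟨P, mem_degreeLT.mpr hP, rfl⟩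

instance (t : ℂ) (N : ℕ) : FiniteDimensional QB (PolyV t N) := by
  unfold PolyV
  haveI : FiniteDimensional QB (degreeLT QB N) :=
    Module.Finite.equiv (degreeLTEquiv QB N).symm
  infer_instance

theorem finrank_PolyV_le (t : ℂ) (N : ℕ) : finrank QB (PolyV t N) ≤ N := by
  unfold PolyV
  haveI : FiniteDimensional QB (degreeLT QB N) :=
    Module.Finite.equiv (degreeLTEquiv QB N).symm
  refine (Submodule.finrank_map_le _ _).trans ?_
  rw [(degreeLTEquiv QB N).finrank_eq, Module.finrank_fintype_fun_eq_card, Fintype.card_fin]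

/-- `w` is the value at `t` of a rational function of degree at most `D` with algebraic
coefficients -/
def RatVal (t : ℂ) (D : ℕ) (w : ℂ) : Prop :=
  ∃ P Q : QB[X], P.natDegree ≤ D ∧ Q.natDegree ≤ D ∧ Q ≠ 0 ∧ w * aeval t Q = aeval t P

/-- common denominators -/
theorem exists_Y {t : ℂ} (ht : Transcendental ℚ t) (D h r : ℕ) (hh : 0 < h) (w : Fin r → ℂ)
    (hw : ∀ j, RatVal t D (w j)) (z : ℂ) :
    ∃ Y : Submodule QB ℂ, FiniteDimensional QB Y ∧ finrank QB Y ≤ r * D + h ∧
      (∀ i : Fin h, t ^ (i : ℕ) * z ∈ Y) ∧ ∀ (i : Fin h) j, t ^ (i : ℕ) * (z * w j) ∈ Y := by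
  classical
  choose P Q hP hQ hQ0 hPQ using hw
  set q : QB[X] := ∏ j, Q j with hq
  have hq0 : aeval t q ≠ 0 := aeval_ne_zero ht (Finset.prod_ne_zero_iff.mpr (fun j _ => hQ0 j))
  let m : ℂ →ₗ[QB] ℂ := LinearMap.mulLeft QB (z * (aeval t q)⁻¹)
  have hm : ∀ v, m v = z * (aeval t q)⁻¹ * v := fun v => rfl
  refine ⟨(PolyV t (r * D + h)).map m, inferInstance, ?_, ?_, ?_⟩
  · exact (Submodule.finrank_map_le _ _).trans (finrank_PolyV_le _ _)
  · intro i
    refine ⟨aeval t (X ^ (i : ℕ) * q), mem_PolyV ?_, ?_⟩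
    · refine lt_of_le_of_lt degree_le_natDegree ?_
      rw [Nat.cast_lt]
      refine lt_of_le_of_lt natDegree_mul_le ?_
      rw [natDegree_X_pow]
      have h1 : q.natDegree ≤ ∑ j, (Q j).natDegree := natDegree_prod_le _ _
      have h2 : ∑ j, (Q j).natDegree ≤ ∑ _j : Fin r, D := Finset.sum_le_sum (fun j _ => hQ j)
      rw [Finset.sum_const, Finset.card_univ, Fintype.card_fin, smul_eq_mul] at h2
      have := i.isLt
      omega
    · rw [hm, map_mul, map_pow, aeval_X]
      field_simp
  · intro i j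
    refine ⟨aeval t (X ^ (i : ℕ) * (P j * ∏ k ∈ Finset.univ.erase j, Q k)), mem_PolyV ?_, ?_⟩
    · refine lt_of_le_of_lt degree_le_natDegree ?_
      rw [Nat.cast_lt]
      refine lt_of_le_of_lt natDegree_mul_le ?_
      rw [natDegree_X_pow]
      have h0 : (P j * ∏ k ∈ Finset.univ.erase j, Q k).natDegree ≤
          (P j).natDegree + (∏ k ∈ Finset.univ.erase j, Q k).natDegree := natDegree_mul_le
      have h1 : (∏ k ∈ Finset.univ.erase j, Q k).natDegree ≤
          ∑ k ∈ Finset.univ.erase j, (Q k).natDegree := natDegree_prod_le _ _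
      have h2 : ∑ k ∈ Finset.univ.erase j, (Q k).natDegree ≤ ∑ _k ∈ Finset.univ.erase j, D :=
        Finset.sum_le_sum (fun j _ => hQ j)
      rw [Finset.sum_const, Finset.card_erase_of_mem (Finset.mem_univ _), Finset.card_univ,
        Fintype.card_fin, smul_eq_mul] at h2
      have h3 := hP j
      have h4 := i.isLt
      obtain ⟨r', hr'⟩ : ∃ r', r = r' + 1 := ⟨r - 1, by have := j.isLt; omega⟩
      have h5 : (r - 1) * D + D = r * D := by
        rw [hr']
        have : r' + 1 - 1 = r' := rfl
        rw [this]; ring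
      omega
    · have h6 : q = Q j * ∏ k ∈ Finset.univ.erase j, Q k :=
        (Finset.mul_prod_erase Finset.univ Q (Finset.mem_univ j)).symm
      rw [hm, map_mul, map_mul, map_pow, aeval_X, ← hPQ]
      have h7 : w j * aeval t (Q j) * aeval t (∏ k ∈ Finset.univ.erase j, Q k) =
          w j * aeval t q := by
        rw [h6, map_mul]; ring
      rw [h7]
      field_simp

/-- **Projective version**: at most `4 D` linearly independent elements of `Lt` have the form
`z R(t)` with rational functions `R` of degree at most `D`. -/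
theorem rat_scaled {t z : ℂ} (ht : Transcendental ℚ t) (D r : ℕ) (w : Fin r → ℂ)
    (hw : ∀ j, RatVal t D (w j)) (hL : ∀ j, z * w j ∈ Lt)
    (hli : LinearIndependent QB (fun j => z * w j)) (h : ℕ) (hh : 0 < h) :
    h * r ≤ r * D + h + h * (h - 1) := by
  obtain ⟨Y, hYfin, hYle, -, hY⟩ := exists_Y ht D h r hh w hw z
  let X : Submodule QB ℂ := Submodule.span QB (Set.range (fun i : Fin h => t ^ (i : ℕ)))
  let W : Submodule QB ℂ := Submodule.span QB (Set.range (fun j : Fin r => z * w j))
  have hX : finrank QB X = h := by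
    have := finrank_span_eq_card (pow_indep ht h)
    rwa [Fintype.card_fin] at this
  have hWr : finrank QB W = r := by
    have := finrank_span_eq_card hli
    rwa [Fintype.card_fin] at this
  have hWL : W ≤ Lt := by
    refine Submodule.span_le.mpr ?_
    rintro _ ⟨j, rfl⟩
    exact hL j
  have hmul : ∀ x ∈ X, ∀ v ∈ W, x * v ∈ Y := by
    intro x hx v hv
    have h1 : x * v ∈ X * W := Submodule.mul_mem_mul hx hv
    have h2 : X * W ≤ Y := by
      change Submodule.span QB _ * Submodule.span QB _ ≤ Y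
      rw [Submodule.span_mul_span, Submodule.span_le]
      rintro _ ⟨_, ⟨i, rfl⟩, _, ⟨j, rfl⟩, rfl⟩
      exact hY i j
    exact h2 h1
  haveI : FiniteDimensional QB X := FiniteDimensional.span_of_finite QB (Set.finite_range _)
  haveI : FiniteDimensional QB W := FiniteDimensional.span_of_finite QB (Set.finite_range _)
  have := product_le X W Y hWL hmul
  rw [hX, hWr] at this
  omega

/-- **Affine version**. -/
theorem rat_affine {t : ℂ} (ht : Transcendental ℚ t) (D r : ℕ) (w : Fin r → ℂ)
    (hw : ∀ j, RatVal t D (w j)) (hL : ∀ j, w j ∈ Lt)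
    (hli : LinearIndependent QB (Fin.cons 1 w : Fin (r + 1) → ℂ)) (h : ℕ) (hh : 0 < h) :
    h * (r + 1) ≤ r * D + h + h * (h - 1) := by
  obtain ⟨Y, hYfin, hYle, hY1, hY⟩ := exists_Y ht D h r hh w hw 1
  let X : Submodule QB ℂ := Submodule.span QB (Set.range (fun i : Fin h => t ^ (i : ℕ)))
  let W : Submodule QB ℂ := Submodule.span QB (Set.range (Fin.cons 1 w : Fin (r + 1) → ℂ))
  have hX : finrank QB X = h := by
    have := finrank_span_eq_card (pow_indep ht h)
    rwa [Fintype.card_fin] at this
  have hWr : finrank QB W = r + 1 := by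
    have := finrank_span_eq_card hli
    rwa [Fintype.card_fin] at this
  have hWL : W ≤ Lt := by
    refine Submodule.span_le.mpr ?_
    rintro _ ⟨j, rfl⟩
    refine Fin.cases ?_ ?_ j
    · exact Lt_alg isAlgebraic_one
    · intro j; exact hL j
  have hmul : ∀ x ∈ X, ∀ v ∈ W, x * v ∈ Y := by
    intro x hx v hv
    have h1 : x * v ∈ X * W := Submodule.mul_mem_mul hx hv
    have h2 : X * W ≤ Y := by
      change Submodule.span QB _ * Submodule.span QB _ ≤ Y
      rw [Submodule.span_mul_span, Submodule.span_le]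
      rintro _ ⟨_, ⟨i, rfl⟩, _, ⟨j, rfl⟩, rfl⟩
      refine Fin.cases ?_ ?_ j
      · have := hY1 i
        simpa using this
      · intro j
        have := hY i j
        rw [one_mul] at this
        exact this
    exact h2 h1
  haveI : FiniteDimensional QB X := FiniteDimensional.span_of_finite QB (Set.finite_range _)
  haveI : FiniteDimensional QB W := FiniteDimensional.span_of_finite QB (Set.finite_range _)
  have := product_le X W Y hWL hmul
  rw [hX, hWr] at this
  omega

end Pool.Agent.W254.HP
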