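import Pool.Agent.W254.HP.Rat

/-!
# Linear relations between logarithms with coefficients in a finite dimensional space
-/

set_option autoImplicit false

namespace Pool.Agent.W254.HP

open Module Finset
open Pool.Agent.H301R2.SSE (QB mem_QB Lt Lt_rep Lt_mul Lt_alg Lt_log)

/-- hyperplane theorem with arbitrary finite index type for the columns -/
theorem hyperplane' {κ : Type*} [Fintype κ] (d : ℕ) (x : Fin d → ℂ) (a : Fin d → κ → ℂ)
    (hx : LinearIndependent QB x) (ha : ∀ i j, a i j ∈ Lt) (hxa : ∀ j, ∑ i, x i * a i j = 0)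
    (hcol : LinearIndependent QB (fun j i => a i j)) : Fintype.card κ ≤ d * (d - 1) := by
  have e := Fintype.equivFin κ
  refine hyperplane d (Fintype.card κ) x (fun i j => a i (e.symm j)) hx (fun i j => ha _ _)
    (fun j => hxa _) ?_
  exact hcol.comp e.symm e.symm.injective

/-- **Rank bound for relations.** Let `w` be a family in `Lt`, linearly independent over the
algebraic numbers, and let `A, B, C` be spaces with `B A ⊆ C`.  Then `m` relations
`∑ f s * w s = 0` with coefficients in `A`, linearly independent over `ℂ`, exist only if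
`m dim B ≤ dim C (dim C - 1)`. -/
theorem rel_core {ι : Type*} (w : ι → ℂ) (hw : LinearIndependent QB w) (hL : ∀ i, w i ∈ Lt)
    (A B C : Submodule QB ℂ) [FiniteDimensional QB B] [FiniteDimensional QB C]
    (hC : ∀ b ∈ B, ∀ a ∈ A, b * a ∈ C) (m : ℕ) (f : Fin m → (ι →₀ ℂ))
    (hf : LinearIndependent ℂ f) (hfA : ∀ i s, f i s ∈ A)
    (hf0 : ∀ i, (f i).sum (fun s c => c * w s) = 0) :
    m * finrank QB B ≤ finrank QB C * (finrank QB C - 1) := by
  classical
  let F : Finset ι := Finset.univ.biUnion (fun i => (f i).support)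
  have hF : ∀ i, (f i).support ⊆ F := fun i =>
    Finset.subset_biUnion_of_mem (fun i => (f i).support) (Finset.mem_univ i)
  let bB := Module.finBasis QB B
  let bC := Module.finBasis QB C
  let γ : Fin m × Fin (finrank QB B) → ι → Fin (finrank QB C) → QB := fun ik s u =>
    bC.repr ⟨(bB ik.2 : ℂ) * f ik.1 s, hC _ (bB ik.2).2 _ (hfA _ _)⟩ u
  have hγ : ∀ ik s, ∑ u, ((γ ik s u : QB) : ℂ) * ((bC u : C) : ℂ) = (bB ik.2 : ℂ) * f ik.1 s := by
    intro ik s
    have h1 := bC.sum_repr ⟨(bB ik.2 : ℂ) * f ik.1 s, hC _ (bB ik.2).2 _ (hfA _ _)⟩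
    have h2 := congrArg (fun z : C => (z : ℂ)) h1
    simp only [Submodule.coe_sum, Submodule.coe_smul] at h2
    rw [← h2]
    apply Finset.sum_congr rfl
    intro u _
    rw [Algebra.smul_def]
    rfl
  have hx : LinearIndependent QB (fun u => ((bC u : C) : ℂ)) :=
    bC.linearIndependent.map' C.subtype C.ker_subtype
  have hmain := hyperplane' (κ := Fin m × Fin (finrank QB B)) (finrank QB C)
    (fun u => ((bC u : C) : ℂ)) (fun u ik => ∑ s ∈ F, ((γ ik s u : QB) : ℂ) * w s) hx ?_ ?_ ?_
  · rwa [Fintype.card_prod, Fintype.card_fin, Fintype.card_fin] at hmain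
  · intro u ik
    apply Submodule.sum_mem
    intro s _
    have := Lt.smul_mem (γ ik s u) (hL s)
    rwa [Algebra.smul_def] at this
  · intro ik
    have h1 : ∑ u, ((bC u : C) : ℂ) * ∑ s ∈ F, ((γ ik s u : QB) : ℂ) * w s =
        ∑ s ∈ F, ((bB ik.2 : ℂ) * f ik.1 s) * w s := by
      simp only [Finset.mul_sum]
      rw [Finset.sum_comm]
      apply Finset.sum_congr rfl
      intro s _
      rw [← hγ ik s, Finset.sum_mul]
      apply Finset.sum_congr rfl
      intro u _
      ring
    rw [h1]
    have h2 := hf0 ik.1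
    rw [Finsupp.sum_of_support_subset _ (hF ik.1) _ (by intro i _; ring)] at h2
    have h3 : ∀ s, (bB ik.2 : ℂ) * f ik.1 s * w s = (bB ik.2 : ℂ) * (f ik.1 s * w s) := by
      intro s; ring
    simp only [h3]
    rw [← Finset.mul_sum, h2, mul_zero]
  · rw [Fintype.linearIndependent_iff]
    intro β hβ
    have h1 : ∀ u, ∀ s ∈ F, ∑ ik, β ik * γ ik s u = 0 := by
      intro u
      have h2 := congrFun hβ u
      rw [Finset.sum_apply, Pi.zero_apply] at h2
      have h3 : ∑ s ∈ F, (∑ ik, β ik * γ ik s u) • w s = 0 := by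
        rw [← h2]
        simp only [Finset.sum_smul]
        rw [Finset.sum_comm]
        apply Finset.sum_congr rfl
        intro ik _
        rw [Pi.smul_apply, Algebra.smul_def, Finset.mul_sum]
        apply Finset.sum_congr rfl
        intro s _
        rw [Algebra.smul_def]
        change ((β ik * γ ik s u : QB) : ℂ) * w s = _
        push_cast
        rw [mul_assoc]
        rfl
      exact linearIndependent_iff'.mp hw F _ h3
    -- the combination of the relations
    have h4 : ∀ s, ∑ ik, (β ik : ℂ) * ((bB ik.2 : ℂ) * f ik.1 s) = 0 := by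
      intro s
      by_cases hs : s ∈ F
      · have h5 : ∀ ik, (β ik : ℂ) * ((bB ik.2 : ℂ) * f ik.1 s) =
            ∑ u, ((β ik * γ ik s u : QB) : ℂ) * ((bC u : C) : ℂ) := by
          intro ik
          rw [← hγ ik s, Finset.mul_sum]
          apply Finset.sum_congr rfl
          intro u _
          push_cast
          ring
        simp only [h5]
        rw [Finset.sum_comm]
        apply Finset.sum_eq_zero
        intro u _
        rw [← Finset.sum_mul]
        have h6 := congrArg (fun z : QB => (z : ℂ)) (h1 u s hs)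
        push_cast at h6
        push_cast
        rw [h6, zero_mul]
      · apply Finset.sum_eq_zero
        intro ik _
        have : f ik.1 s = 0 := by
          by_contra h0
          exact hs (hF ik.1 (Finsupp.mem_support_iff.mpr h0))
        rw [this]; ring
    have h7 : ∑ i, (∑ k, (β (i, k) : ℂ) * (bB k : ℂ)) • f i = 0 := by
      ext s
      rw [Finsupp.coe_zero, Pi.zero_apply, Finsupp.finsetSum_apply]
      rw [← h4 s, Fintype.sum_prod_type]
      apply Finset.sum_congr rfl
      intro i _
      rw [Finsupp.smul_apply, smul_eq_mul, Finset.sum_mul]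
      apply Finset.sum_congr rfl
      intro k _
      ring
    have h8 := Fintype.linearIndependent_iff.mp hf _ h7
    rintro ⟨i, k⟩
    have h9 : ∑ k, β (i, k) • bB k = 0 := by
      apply Subtype.ext
      rw [Submodule.coe_sum]
      refine Eq.trans ?_ (h8 i)
      apply Finset.sum_congr rfl
      intro k _
      rw [Submodule.coe_smul, Algebra.smul_def]
      rfl
    exact Fintype.linearIndependent_iff.mp bB.linearIndependent _ h9 k

/-- **The exceptional set.** -/
theorem exists_exceptional {ι : Type*} (w : ι → ℂ) (hw : LinearIndependent QB w)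
    (hL : ∀ i, w i ∈ Lt) (A B C : Submodule QB ℂ) [FiniteDimensional QB B]
    [FiniteDimensional QB C] (hB : 0 < finrank QB B) (hC : ∀ b ∈ B, ∀ a ∈ A, b * a ∈ C) (i₀ : ι) :
    ∃ E : Finset ι, i₀ ∉ E ∧ E.card * finrank QB B ≤ finrank QB C * (finrank QB C - 1) ∧
      ∀ f : ι →₀ ℂ, (∀ s, f s ∈ A) → f.sum (fun s c => c * w s) = 0 → (∀ s ∈ E, f s = 0) →
        f = 0 := by
  classical
  -- a maximal independent family of relations
  let Q : ℕ → Prop := fun m => ∃ f : Fin m → (ι →₀ ℂ), LinearIndependent ℂ f ∧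
    (∀ i s, f i s ∈ A) ∧ ∀ i, (f i).sum (fun s c => c * w s) = 0
  have hQ0 : Q 0 := ⟨fun i => isEmptyElim i, linearIndependent_empty_type, fun i => isEmptyElim i,
    fun i => isEmptyElim i⟩
  have hbound : ∀ m, Q m → m ≤ finrank QB C * (finrank QB C - 1) := by
    rintro m ⟨f, h1, h2, h3⟩
    have := rel_core w hw hL A B C hC m f h1 h2 h3
    nlinarith
  obtain ⟨m, hm, hmax⟩ : ∃ m, Q m ∧ ∀ m', Q m' → m' ≤ m := by
    refine ⟨Nat.findGreatest Q (finrank QB C * (finrank QB C - 1)), ?_, ?_⟩
    · exact Nat.findGreatest_spec (P := Q) (Nat.zero_le _) hQ0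
    · intro m' hm'
      exact Nat.le_findGreatest (hbound m' hm') hm'
  obtain ⟨f, hf, hfA, hf0⟩ := hm
  have hcard := rel_core w hw hL A B C hC m f hf hfA hf0
  have hspan : ∀ g : ι →₀ ℂ, (∀ s, g s ∈ A) → g.sum (fun s c => c * w s) = 0 →
      g ∈ Submodule.span ℂ (Set.range f) := by
    intro g hgA hg0
    by_contra hg
    have h1 : Q (m + 1) := by
      refine ⟨Fin.cons g f, ?_, ?_, ?_⟩
      · rw [linearIndependent_finCons]
        exact ⟨hf, hg⟩
      · intro i
        refine Fin.cases ?_ ?_ i
        · exact hgA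
        · intro i; exact hfA i
      · intro i
        refine Fin.cases ?_ ?_ i
        · exact hg0
        · intro i; exact hf0 i
    have := hmax _ h1
    omega
  -- coordinates
  let F : Finset ι := (Finset.univ.biUnion (fun i => (f i).support)).erase i₀
  let ρ : (ι →₀ ℂ) →ₗ[ℂ] (F → ℂ) :=
    { toFun := fun g s => g s
      map_add' := by intro a b; rfl
      map_smul' := by intro a b; rfl }
  have hw0 : ∀ g ∈ Submodule.span ℂ (Set.range f), g.sum (fun s c => c * w s) = 0 := by
    intro g hg
    have hlin : ∀ g : ι →₀ ℂ, g.sum (fun s c => c * w s) = Finsupp.linearCombination ℂ w g := by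
      intro g
      rw [Finsupp.linearCombination_apply]
      rfl
    rw [hlin]
    refine Submodule.span_induction (p := fun g _ => Finsupp.linearCombination ℂ w g = 0)
      ?_ ?_ ?_ ?_ hg
    · rintro _ ⟨i, rfl⟩
      rw [← hlin]; exact hf0 i
    · simp
    · intro a b _ _ ha hb
      rw [map_add, ha, hb, add_zero]
    · intro c a _ ha
      rw [map_smul, ha, smul_zero]
  have hsupp : ∀ g ∈ Submodule.span ℂ (Set.range f), ∀ s, s ∉ F → s ≠ i₀ → g s = 0 := by
    intro g hg s hs hsi
    refine Submodule.span_induction (p := fun g _ => g s = 0) ?_ ?_ ?_ ?_ hg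
    · rintro _ ⟨i, rfl⟩
      by_contra h0
      apply hs
      rw [Finset.mem_erase]
      refine ⟨hsi, Finset.mem_biUnion.mpr ⟨i, Finset.mem_univ _, ?_⟩⟩
      exact Finsupp.mem_support_iff.mpr h0
    · simp
    · intro a b _ _ ha hb
      rw [Finsupp.add_apply, ha, hb, add_zero]
    · intro c a _ ha
      rw [Finsupp.smul_apply, ha, smul_zero]
  have hρ : ∀ g ∈ Submodule.span ℂ (Set.range f), ρ g = 0 → g = 0 := by
    intro g hg h0
    have h1 : ∀ s, s ≠ i₀ → g s = 0 := by
      intro s hs
      by_cases hsF : s ∈ F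
      · exact congrFun h0 ⟨s, hsF⟩
      · exact hsupp g hg s hsF hs
    have h2 := hw0 g hg
    have h3 : g.sum (fun s c => c * w s) = g i₀ * w i₀ := by
      rw [Finsupp.sum_of_support_subset (s := {i₀})]
      · rw [Finset.sum_singleton]
      · intro s hs
        rw [Finset.mem_singleton]
        by_contra hne
        exact (Finsupp.mem_support_iff.mp hs) (h1 s hne)
      · intro i _; ring
    rw [h3] at h2
    have h4 : g i₀ = 0 := (mul_eq_zero.mp h2).resolve_right (hw.ne_zero i₀)
    ext s
    by_cases hs : s = i₀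
    · rw [hs, h4]; rfl
    · rw [h1 s hs]; rfl
  obtain ⟨E, hE, hEinj⟩ := Pool.Agent.H301R2.ZG.exists_coords
    ((Submodule.span ℂ (Set.range f)).map ρ)
  refine ⟨E.map ⟨Subtype.val, Subtype.val_injective⟩, ?_, ?_, ?_⟩
  · intro h
    obtain ⟨s, _, hs⟩ := Finset.mem_map.mp h
    have h1 := s.2
    rw [Finset.mem_erase] at h1
    exact h1.1 hs
  · rw [Finset.card_map, hE]
    haveI : Module.Finite ℂ (Submodule.span ℂ (Set.range f)) :=
      FiniteDimensional.span_of_finite ℂ (Set.finite_range f)
    have h1 : finrank ℂ ((Submodule.span ℂ (Set.range f)).map ρ) ≤ m := by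
      refine (Submodule.finrank_map_le _ _).trans ?_
      refine (finrank_range_le_card _).trans ?_
      rw [Fintype.card_fin]
    exact (Nat.mul_le_mul_right _ h1).trans hcard
  · intro g hgA hg0 hgE
    have hg := hspan g hgA hg0
    apply hρ g hg
    apply hEinj _ (Submodule.mem_map_of_mem hg)
    intro j hj
    exact hgE _ (Finset.mem_map.mpr ⟨j, hj, rfl⟩)

end Pool.Agent.W254.HP
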